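import Pool.Agent.Q132.EP.St
import Pool.Agent.H307R2.OP.SV

/-!
# Task SIA of project EP: the sieve for a fixed set of exact prime factors
-/

set_option autoImplicit false

namespace Pool.Agent.Q149.EP

open Finset Pool.Agent.Q132.EP

/-- the residues `x` with `Q x ≡ h (mod p)` -/
def rt (Q h p : ℕ) : Finset ℕ := (range p).filter (fun x : ℕ => (p : ℤ) ∣ (Q : ℤ) * x - h)

theorem dvd_iff_zmod (Q h p x : ℕ) : ((p : ℤ) ∣ (Q : ℤ) * x - h) ↔ (Q : ZMod p) * x = h := by
  rw [← ZMod.intCast_zmod_eq_zero_iff_dvd]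
  push_cast
  rw [sub_eq_zero]

theorem rt_unique {Q h p x x' : ℕ} (hp : p.Prime) (hQ : ¬ p ∣ Q)
    (h1 : (p : ℤ) ∣ (Q : ℤ) * x - h) (h2 : (p : ℤ) ∣ (Q : ℤ) * x' - h) : x % p = x' % p := by
  have := Fact.mk hp
  rw [dvd_iff_zmod] at h1 h2
  have hQ' : (Q : ZMod p) ≠ 0 := by
    rw [Ne, ZMod.natCast_eq_zero_iff]
    exact hQ
  have h3 : (x : ZMod p) = x' := mul_left_cancel₀ hQ' (h1.trans h2.symm)
  exact (ZMod.natCast_eq_natCast_iff' x x' p).1 h3

theorem rt_card {Q h p : ℕ} (hp : p.Prime) (hQ : ¬ p ∣ Q) : (rt Q h p).card = 1 := by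
  have := Fact.mk hp
  have hQ' : (Q : ZMod p) ≠ 0 := by
    rw [Ne, ZMod.natCast_eq_zero_iff]
    exact hQ
  apply le_antisymm
  · rw [Finset.card_le_one]
    intro a ha b hb
    unfold rt at ha hb
    rw [Finset.mem_filter, Finset.mem_range] at ha hb
    have := rt_unique hp hQ ha.2 hb.2
    rwa [Nat.mod_eq_of_lt ha.1, Nat.mod_eq_of_lt hb.1] at this
  · rw [Nat.succ_le_iff, Finset.card_pos]
    refine ⟨((h : ZMod p) * (Q : ZMod p)⁻¹).val, ?_⟩
    unfold rt
    rw [Finset.mem_filter, Finset.mem_range]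
    refine ⟨ZMod.val_lt _, ?_⟩
    rw [dvd_iff_zmod, ZMod.natCast_val, ZMod.cast_id]
    field_simp

theorem zero_mem_rt {Q h p : ℕ} (hp : p.Prime) : 0 ∈ rt Q h p ↔ p ∣ h := by
  unfold rt
  rw [Finset.mem_filter, Finset.mem_range]
  constructor
  · rintro ⟨_, h2⟩
    have h3 : (p : ℤ) ∣ -(h : ℤ) := by simpa using h2
    rw [Int.dvd_neg] at h3
    exact_mod_cast h3
  · intro h1
    refine ⟨hp.pos, ?_⟩
    have h3 : (p : ℤ) ∣ (h : ℤ) := by exact_mod_cast h1
    simpa using h3

theorem omega_le_log {h : ℕ} (hh : 1 ≤ h) : h.primeFactors.card ≤ Nat.log 2 h := by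
  apply Nat.le_log_of_pow_le (by norm_num)
  calc 2 ^ h.primeFactors.card = ∏ _p ∈ h.primeFactors, 2 := by simp
    _ ≤ ∏ p ∈ h.primeFactors, p :=
        Finset.prod_le_prod' (fun p hp => (Nat.prime_of_mem_primeFactors hp).two_le)
    _ ≤ h := Nat.le_of_dvd (by omega) (Nat.prod_primeFactors_dvd h)

theorem sum_inv_le {S : Finset ℕ} {y : ℕ} (hy : 0 < y) (hS : ∀ q ∈ S, y < q) :
    ∑ q ∈ S, (1 : ℝ) / q ≤ S.card / y := by
  have hy' : (0 : ℝ) < y := by exact_mod_cast hy
  have h1 : ∀ q ∈ S, (1 : ℝ) / q ≤ 1 / y := by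
    intro q hq
    apply one_div_le_one_div_of_le hy'
    exact_mod_cast (hS q hq).le
  have := Finset.sum_le_card_nsmul S (fun q => (1 : ℝ) / q) (1 / y) h1
  rw [nsmul_eq_mul] at this
  calc ∑ q ∈ S, (1 : ℝ) / q ≤ S.card * (1 / y) := this
    _ = S.card / y := by ring

theorem sum_sq_le {S : Finset ℕ} {y z : ℕ} (hy : 64 ≤ y) (hS : ∀ q ∈ S, q ∈ Ioc y z) :
    ∑ q ∈ S, (4 : ℝ) / (q : ℝ) ^ 2 ≤ 1 := by
  have h1 : ∑ q ∈ S, (4 : ℝ) / (q : ℝ) ^ 2 ≤ ∑ q ∈ Ioc y z, (4 : ℝ) / (q : ℝ) ^ 2 :=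
    Finset.sum_le_sum_of_subset_of_nonneg hS (fun i _ _ => by positivity)
  refine h1.trans ?_
  by_cases hyz : y ≤ z
  · have h2 := sum_Ioc_inv_sq_le_sub (α := ℝ) (k := y) (n := z) (by omega) hyz
    have h3 : ∑ q ∈ Ioc y z, (4 : ℝ) / (q : ℝ) ^ 2 = 4 * ∑ q ∈ Ioc y z, ((q : ℝ) ^ 2)⁻¹ := by
      rw [Finset.mul_sum]
      apply Finset.sum_congr rfl
      intro q _
      ring
    rw [h3]
    have h4 : (y : ℝ)⁻¹ ≤ 1 / 64 := by
      rw [one_div]
      apply inv_anti₀ (by norm_num)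
      exact_mod_cast hy
    have h5 : (0 : ℝ) ≤ (z : ℝ)⁻¹ := by positivity
    linarith
  · rw [Finset.Ioc_eq_empty (by omega)]
    simp

theorem prime_not_dvd_prod {B : Finset ℕ} (hB : ∀ q ∈ B, q.Prime) {p : ℕ} (hp : p.Prime)
    (hpB : p ∉ B) : ¬ p ∣ ∏ r ∈ B, r := by
  intro hd
  rw [hp.prime.dvd_finsetProd_iff] at hd
  obtain ⟨q, hq, hpq⟩ := hd
  have := (Nat.prime_dvd_prime_iff_eq hp (hB q hq)).1 hpq
  exact hpB (this ▸ hq)

/-- Task SIA. -/
theorem sia : S_SIA := by
  intro B E h U y z K D hy hh hB hE hBE hsm hD hzD hK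
  have hQ5 : ∀ q ∈ Q5 y z, q.Prime ∧ y < q ∧ q ≤ z ∧ q % 8 = 5 := by
    intro q hq
    unfold Q5 at hq
    rw [Finset.mem_filter, Finset.mem_Ioc] at hq
    exact ⟨hq.2.1, hq.1.1, hq.1.2, hq.2.2⟩
  have hBp : ∀ q ∈ B, q.Prime := fun q hq => (hQ5 q (hB q hq)).1
  have hEp : ∀ q ∈ E, q.Prime := fun q hq => (hQ5 q (hE q hq)).1
  set Q : ℕ := ∏ r ∈ B, r with hQ
  set m : ℕ := ∏ q ∈ E, q with hm
  have hm1 : 1 ≤ m := Finset.prod_pos (fun q hq => (hEp q hq).pos)
  have hmr : (m : ℝ) = ∏ q ∈ E, (q : ℝ) := by rw [hm]; push_cast; rfl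
  set P : Finset ℕ := ((Ioc y z).filter Nat.Prime) \ (B ∪ E) with hP
  have hPm : ∀ p ∈ P, p.Prime ∧ y < p ∧ p ≤ z ∧ p ∉ B ∧ p ∉ E := by
    intro p hp
    rw [hP, Finset.mem_sdiff, Finset.mem_filter, Finset.mem_Ioc, Finset.mem_union] at hp
    push Not at hp
    exact ⟨hp.1.2, hp.1.1.1, hp.1.1.2, hp.2.1, hp.2.2⟩
  set Ω : ℕ → Finset ℕ := fun p => if p % 8 = 5 then {0} ∪ rt Q h p else {0} with hΩ
  have hΩ5 : ∀ p, p % 8 = 5 → Ω p = {0} ∪ rt Q h p := fun p hp => by simp only [hΩ, if_pos hp]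
  have hΩn : ∀ p, ¬ p % 8 = 5 → Ω p = {0} := fun p hp => by simp only [hΩ, if_neg hp]
  have hcard2 : ∀ p ∈ P, (Ω p).card ≤ 2 := by
    intro p hp
    obtain ⟨h1, -, -, h4, -⟩ := hPm p hp
    by_cases h5 : p % 8 = 5
    · rw [hΩ5 p h5]
      refine (Finset.card_union_le _ _).trans ?_
      rw [rt_card h1 (prime_not_dvd_prod hBp h1 h4), Finset.card_singleton]
    · rw [hΩn p h5, Finset.card_singleton]
      norm_num
  -- the mass
  set M : ℝ := ∑ p ∈ P, ((Ω p).card : ℝ) / p with hM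
  have hy0 : (0 : ℝ) < y := by exact_mod_cast (by omega : 0 < y)
  -- the full sum
  have hfull : V y z + S5 y z =
      ∑ p ∈ (Ioc y z).filter Nat.Prime, (1 + if p % 8 = 5 then (1 : ℝ) else 0) / p := by
    have e1 : S5 y z = ∑ p ∈ (Ioc y z).filter Nat.Prime, if p % 8 = 5 then (1 : ℝ) / p else 0 := by
      unfold S5 Q5
      rw [← Finset.filter_filter, Finset.sum_filter]
    rw [e1]
    unfold V
    rw [← Finset.sum_add_distrib]
    apply Finset.sum_congr rfl
    intro p _
    split_ifs <;> ring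
  have hPsub : P ⊆ (Ioc y z).filter Nat.Prime := Finset.sdiff_subset
  have hup : M ≤ V y z + S5 y z := by
    rw [hfull]
    refine le_trans ?_ (Finset.sum_le_sum_of_subset_of_nonneg hPsub (fun p _ _ => by positivity))
    apply Finset.sum_le_sum
    intro p hp
    apply div_le_div_of_nonneg_right _ (Nat.cast_nonneg p)
    by_cases h5 : p % 8 = 5
    · rw [if_pos h5]
      have := hcard2 p hp
      have h2 : ((Ω p).card : ℝ) ≤ 2 := by exact_mod_cast this
      linarith
    · rw [if_neg h5, hΩn p h5, Finset.card_singleton]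
      norm_num
  have hlow : V y z + S5 y z - 1 ≤ M := by
    have h1 : V y z + S5 y z = ∑ p ∈ P, (1 + if p % 8 = 5 then (1 : ℝ) else 0) / p +
        ∑ p ∈ ((Ioc y z).filter Nat.Prime) ∩ (B ∪ E), (1 + if p % 8 = 5 then (1 : ℝ) else 0) / p := by
      rw [hfull, hP]
      exact ((Finset.sum_inter_add_sum_sdiff _ _ _).symm).trans (add_comm _ _)
    have h2 : ∑ p ∈ ((Ioc y z).filter Nat.Prime) ∩ (B ∪ E),
        (1 + if p % 8 = 5 then (1 : ℝ) else 0) / p ≤ 2 * (B.card + E.card) / y := by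
      have h3 : ∑ p ∈ ((Ioc y z).filter Nat.Prime) ∩ (B ∪ E),
          (1 + if p % 8 = 5 then (1 : ℝ) else 0) / p ≤
          ∑ p ∈ ((Ioc y z).filter Nat.Prime) ∩ (B ∪ E), 2 * ((1 : ℝ) / p) := by
        apply Finset.sum_le_sum
        intro p _
        have : 2 * ((1 : ℝ) / p) = 2 / p := by ring
        rw [this]
        apply div_le_div_of_nonneg_right _ (Nat.cast_nonneg p)
        split_ifs <;> norm_num
      refine h3.trans ?_
      rw [← Finset.mul_sum]
      have h4 : ∑ p ∈ ((Ioc y z).filter Nat.Prime) ∩ (B ∪ E), (1 : ℝ) / p ≤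
          ((((Ioc y z).filter Nat.Prime) ∩ (B ∪ E)).card : ℝ) / y := by
        apply sum_inv_le (by omega)
        intro q hq
        rw [Finset.mem_inter, Finset.mem_filter, Finset.mem_Ioc] at hq
        exact hq.1.1.1
      have h5 : ((((Ioc y z).filter Nat.Prime) ∩ (B ∪ E)).card : ℝ) ≤ B.card + E.card := by
        have := (Finset.card_le_card (Finset.inter_subset_right (s₁ := (Ioc y z).filter Nat.Prime)
          (s₂ := B ∪ E))).trans (Finset.card_union_le B E)
        exact_mod_cast this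
      calc 2 * ∑ p ∈ ((Ioc y z).filter Nat.Prime) ∩ (B ∪ E), (1 : ℝ) / p
          ≤ 2 * (((((Ioc y z).filter Nat.Prime) ∩ (B ∪ E)).card : ℝ) / y) := by linarith
        _ ≤ 2 * ((B.card + E.card) / y) := by gcongr
        _ = 2 * (B.card + E.card) / y := by ring
    -- the primes of `h`
    have h6 : ∑ p ∈ P, (1 + if p % 8 = 5 then (1 : ℝ) else 0) / p ≤ M +
        ∑ p ∈ P.filter (fun p => p ∣ h), (1 : ℝ) / p := by
      rw [Finset.sum_filter, hM, ← Finset.sum_add_distrib]
      apply Finset.sum_le_sum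
      intro p hp
      obtain ⟨g1, -, -, g4, -⟩ := hPm p hp
      have hrt := rt_card (h := h) g1 (prime_not_dvd_prod hBp g1 g4)
      by_cases h5 : p % 8 = 5
      · rw [if_pos h5, hΩ5 p h5]
        by_cases h7 : p ∣ h
        · rw [if_pos h7, ← add_div]
          apply div_le_div_of_nonneg_right _ (Nat.cast_nonneg p)
          have : 1 ≤ ({0} ∪ rt Q h p).card := by
            rw [Nat.succ_le_iff, Finset.card_pos]
            exact ⟨0, by simp⟩
          have : (1 : ℝ) ≤ ((({0} : Finset ℕ) ∪ rt Q h p).card : ℝ) := by exact_mod_cast this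
          linarith
        · rw [if_neg h7, add_zero]
          apply div_le_div_of_nonneg_right _ (Nat.cast_nonneg p)
          rw [Finset.card_union_of_disjoint, hrt, Finset.card_singleton]
          · norm_num
          · rw [Finset.disjoint_singleton_left, zero_mem_rt g1]
            exact h7
      · rw [if_neg h5, hΩn p h5, Finset.card_singleton, add_zero]
        have : (0 : ℝ) ≤ if p ∣ h then (1 : ℝ) / p else 0 := by split_ifs <;> positivity
        push_cast
        linarith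
    have h8 : ∑ p ∈ P.filter (fun p => p ∣ h), (1 : ℝ) / p ≤ (Nat.log 2 h : ℝ) / y := by
      have h9 : ∑ p ∈ P.filter (fun p => p ∣ h), (1 : ℝ) / p ≤
          ((P.filter (fun p => p ∣ h)).card : ℝ) / y := by
        apply sum_inv_le (by omega)
        intro q hq
        rw [Finset.mem_filter] at hq
        exact (hPm q hq.1).2.1
      refine h9.trans ?_
      apply div_le_div_of_nonneg_right _ hy0.le
      have h10 : (P.filter (fun p => p ∣ h)).card ≤ h.primeFactors.card := by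
        apply Finset.card_le_card
        intro q hq
        rw [Finset.mem_filter] at hq
        exact Nat.mem_primeFactors.2 ⟨(hPm q hq.1).1, hq.2, by omega⟩
      exact_mod_cast h10.trans (omega_le_log hh)
    have h11 : 2 * ((B.card : ℝ) + E.card) / y + (Nat.log 2 h : ℝ) / y ≤ 1 := by
      rw [← add_div, div_le_one hy0]
      exact_mod_cast hsm
    linarith
  -- if nothing is counted
  set S : Finset ℕ := (range (U + 1)).filter (fun u => (∀ p ∈ Ioc y z, p.Prime → ¬ p ∣ u) ∧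
      (∀ q ∈ E, (q : ℤ) ∣ (Q : ℤ) * u - h) ∧
      ∀ q ∈ Q5 y z, q ∉ B → q ∉ E → ¬ (q : ℤ) ∣ (Q : ℤ) * u - h) with hS
  have hmpos : (0 : ℝ) < m := by exact_mod_cast hm1
  rw [← hmr]
  rcases S.eq_empty_or_nonempty with hS0 | ⟨a, ha⟩
  · rw [hS0, Finset.card_empty, Nat.cast_zero]
    positivity
  · rw [hS, Finset.mem_filter] at ha
    have hsv := Pool.Agent.H307R2.OP.sv m a U D z K P Ω hm1 hD
      (fun p hp => by
        obtain ⟨h1, h2, h3, h4, h5⟩ := hPm p hp
        refine ⟨h1, by omega, h3, ?_⟩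
        exact (Nat.Prime.coprime_iff_not_dvd h1).2 (prime_not_dvd_prod hEp h1 h5))
      (fun p hp => by
        refine ⟨hcard2 p hp, ?_⟩
        intro x hx
        obtain ⟨h1, -⟩ := hPm p hp
        by_cases h5 : p % 8 = 5
        · rw [hΩ5 p h5, Finset.mem_union, Finset.mem_singleton] at hx
          rcases hx with hx | hx
          · rw [hx]; exact h1.pos
          · unfold rt at hx
            rw [Finset.mem_filter, Finset.mem_range] at hx
            exact hx.1
        · rw [hΩn p h5, Finset.mem_singleton] at hx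
          rw [hx]; exact h1.pos)
      hzD (by rw [← hM]; linarith) (sum_sq_le hy (fun q hq => by
        have := hPm q hq
        rw [Finset.mem_Ioc]
        exact ⟨this.2.1, this.2.2.1⟩))
    rw [← hM] at hsv
    have hsub : S ⊆ (range (U + 1)).filter (fun u => u % m = a % m ∧ ∀ p ∈ P, u % p ∉ Ω p) := by
      intro u hu
      rw [hS, Finset.mem_filter] at hu
      rw [Finset.mem_filter]
      obtain ⟨hu1, hu2, hu3, hu4⟩ := hu
      refine ⟨hu1, ?_, ?_⟩
      · -- the class modulo `m`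
        have hmod : ∀ q ∈ E, u ≡ a [MOD q] := by
          intro q hq
          have hqp := hEp q hq
          have hqB : q ∉ B := fun h1 => (Finset.disjoint_left.1 hBE h1) hq
          exact rt_unique hqp (prime_not_dvd_prod hBp hqp hqB) (hu3 q hq) (ha.2.2.1 q hq)
        have : (m : ℤ) ∣ (a : ℤ) - u := by
          rw [hm]
          push_cast
          apply Finset.prod_dvd_of_coprime
          · intro q hq q' hq' hne
            have := (Nat.coprime_primes (hEp q hq) (hEp q' hq')).2 hne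
            exact Nat.isCoprime_iff_coprime.2 this
          · intro q hq
            exact (Nat.modEq_iff_dvd.1 (hmod q hq))
        exact Nat.modEq_iff_dvd.2 this
      · intro p hp
        obtain ⟨g1, g2, g3, g4, g5⟩ := hPm p hp
        have hpu : ¬ p ∣ u := hu2 p (Finset.mem_Ioc.2 ⟨g2, g3⟩) g1
        have h0 : u % p ≠ 0 := fun h0 => hpu (Nat.dvd_of_mod_eq_zero h0)
        by_cases h5 : p % 8 = 5
        · rw [hΩ5 p h5, Finset.mem_union, Finset.mem_singleton]
          push Not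
          refine ⟨h0, ?_⟩
          intro hmem
          unfold rt at hmem
          rw [Finset.mem_filter] at hmem
          have hq5 : p ∈ Q5 y z := by
            unfold Q5
            rw [Finset.mem_filter, Finset.mem_Ioc]
            exact ⟨⟨g2, g3⟩, g1, h5⟩
          apply hu4 p hq5 g4 g5
          have h6 := hmem.2
          rw [dvd_iff_zmod] at h6 ⊢
          rw [← h6]
          congr 1
          rw [ZMod.natCast_mod]
        · rw [hΩn p h5, Finset.mem_singleton]
          exact h0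
    have hcard : (S.card : ℝ) ≤ 16 * ((U : ℝ) / m + 1) * Real.exp (-M) + (D : ℝ) ^ 6 :=
      le_trans (by exact_mod_cast Finset.card_le_card hsub) hsv
    refine hcard.trans ?_
    have hexp : 16 * Real.exp (-M) ≤ 50 * Real.exp (-(V y z + S5 y z)) := by
      have h1 : Real.exp (-M) ≤ Real.exp (1 + -(V y z + S5 y z)) := Real.exp_le_exp.2 (by linarith)
      rw [Real.exp_add] at h1
      have h2 := Real.exp_one_lt_d9
      have h3 := Real.exp_pos (-(V y z + S5 y z))
      nlinarith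
    have h4 : 0 ≤ (U : ℝ) / m + 1 := by positivity
    nlinarith

end Pool.Agent.Q149.EP
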