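import Pool.Agent.Q149.EP.DLb

/-!
# Project EP (helper255), job DLOW: the diagonal bound is optimal in the mean
-/

set_option autoImplicit false
set_option linter.unusedSectionVars false
set_option linter.unusedVariables false

namespace Pool.Agent.Q149.EP

open Finset Filter Topology MeasureTheory
open Pool.Agent.Q255.IC (pr sg)
open Pool.Agent.Q255.EP (cm)
open Pool.Agent.Q163.HC (lg gf Dg diag_eq)
open Pool.Agent.Q163.RP (mult)

/-! ## primes -/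

/-- the primes in `(n/2, n]` -/
def PH (n : ℕ) : Finset ℕ := (Ioc (n / 2) n).filter Nat.Prime

theorem theta_diff {a b : ℕ} (hab : a ≤ b) :
    Chebyshev.theta b - Chebyshev.theta a = ∑ p ∈ (Ioc a b).filter Nat.Prime, Real.log p := by
  unfold Chebyshev.theta
  rw [Nat.floor_natCast, Nat.floor_natCast]
  have h1 : (Ioc 0 b).filter Nat.Prime = (Ioc 0 a).filter Nat.Prime ∪ (Ioc a b).filter Nat.Prime := by
    ext x
    simp only [mem_filter, mem_union, mem_Ioc]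
    constructor
    · rintro ⟨h, hp⟩
      by_cases hc : x ≤ a
      · exact Or.inl ⟨⟨h.1, hc⟩, hp⟩
      · exact Or.inr ⟨⟨not_le.1 hc, h.2⟩, hp⟩
    · rintro (⟨h, hp⟩ | ⟨h, hp⟩)
      · exact ⟨⟨h.1, h.2.trans hab⟩, hp⟩
      · exact ⟨⟨hp.pos, h.2⟩, hp⟩
  have h2 : Disjoint ((Ioc 0 a).filter Nat.Prime) ((Ioc a b).filter Nat.Prime) := by
    rw [Finset.disjoint_left]
    intro x hx hy
    simp only [mem_filter, mem_Ioc] at hx hy
    omega
  rw [h1, sum_union h2]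
  ring

theorem theta_near : ∃ x0 : ℕ, ∀ n : ℕ, x0 ≤ n →
    (n : ℝ) * (19 / 20) ≤ Chebyshev.theta n ∧ Chebyshev.theta n ≤ n * (21 / 20) := by
  have h1 := Pool.Agent.Cov.PNT.theta_div_tendsto.comp (tendsto_natCast_atTop_atTop (R := ℝ))
  have h2 := h1.eventually (Icc_mem_nhds (show (19 : ℝ) / 20 < 1 by norm_num)
    (show (1 : ℝ) < 21 / 20 by norm_num))
  obtain ⟨x0, hx0⟩ := eventually_atTop.1 (h2.and (eventually_gt_atTop 0))
  refine ⟨x0, fun n hn => ?_⟩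
  obtain ⟨⟨h3, h4⟩, h5⟩ := hx0 n hn
  have h6 : (0 : ℝ) < n := by exact_mod_cast h5
  simp only [Function.comp] at h3 h4
  rw [le_div_iff₀ h6] at h3
  rw [div_le_iff₀ h6] at h4
  constructor <;> linarith

theorem prime_window : ∃ x0 : ℕ, ∀ Z : ℕ, x0 ≤ Z →
    (Z : ℝ) / 4 ≤ ∑ p ∈ (Ioc Z (Z + Z / 2)).filter Nat.Prime, Real.log p := by
  obtain ⟨x0, h⟩ := theta_near
  refine ⟨max x0 8, fun Z hZ => ?_⟩
  rw [← theta_diff (Nat.le_add_right _ _)]
  have h1 := (h Z ((le_max_left _ _).trans hZ)).2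
  have h2 := (h (Z + Z / 2) (((le_max_left _ _).trans hZ).trans (Nat.le_add_right _ _))).1
  have h3 : (Z : ℝ) ≤ 2 * ((Z / 2 : ℕ) : ℝ) + 1 := by
    have : Z ≤ 2 * (Z / 2) + 1 := by omega
    exact_mod_cast this
  have h4 : (8 : ℝ) ≤ Z := by exact_mod_cast (le_max_right _ _).trans hZ
  push_cast at h2
  push_cast
  linarith

theorem card_PH : ∃ x0 : ℕ, ∀ n : ℕ, x0 ≤ n → (n : ℝ) / 4 ≤ (PH n).card * Real.log n := by
  obtain ⟨x0, h⟩ := theta_near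
  refine ⟨2 * x0 + 2, fun n hn => ?_⟩
  have h1 := (h n (by omega)).1
  have h2 := (h (n / 2) (by omega)).2
  have h3 := theta_diff (Nat.div_le_self n 2)
  have h4 : ∑ p ∈ (Ioc (n / 2) n).filter Nat.Prime, Real.log p ≤ (PH n).card * Real.log n := by
    rw [← nsmul_eq_mul]
    refine sum_le_card_nsmul _ _ _ fun p hp => ?_
    rw [mem_filter, mem_Ioc] at hp
    exact Real.log_le_log (by exact_mod_cast hp.2.pos) (by exact_mod_cast hp.1.2)
  have h5 : ((n / 2 : ℕ) : ℝ) ≤ (n : ℝ) / 2 := by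
    have := @Nat.cast_div_le ℝ _ _ _ n 2
    simpa using this
  have h6 : (0 : ℝ) ≤ n := Nat.cast_nonneg n
  rw [← h3] at h4
  linarith

theorem card_PH_le (n : ℕ) : (PH n).card ≤ n := by
  refine (card_filter_le _ _).trans ?_
  rw [Nat.card_Ioc]
  exact Nat.sub_le _ _

/-! ## the main terms -/

theorem BB_ge {β : ℝ} (hβ : β ≤ 1) (l : Bool) {N q M Z : ℕ} (hq : q.Prime) (hM : 2 * (q * M) ≤ Z)
    (hZ : Z < N) :
    ∑ m ∈ (PH M).erase q, ArithmeticFunction.vonMangoldt (N - q * m) * (M : ℝ) ^ (β - 1) ≤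
      BB β l N q := by
  have hterm : ∀ m, 0 ≤ lg l m := by
    intro m
    unfold lg
    split_ifs
    · exact Real.log_natCast_nonneg m
    · exact zero_le_one
  have hsub : (PH M).erase q ⊆ Icc 1 ((N - 1) / q) := by
    intro m hm
    rw [mem_erase, PH, mem_filter, mem_Ioc] at hm
    rw [mem_Icc, Nat.le_div_iff_mul_le hq.pos]
    refine ⟨hm.2.2.pos, ?_⟩
    have h1 : m * q ≤ q * M := by
      rw [mul_comm]
      exact Nat.mul_le_mul_left q hm.2.1.2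
    omega
  unfold BB
  refine le_trans (sum_le_sum fun m hm => ?_) (sum_le_sum_of_subset_of_nonneg hsub fun m _ _ =>
    mul_nonneg ArithmeticFunction.vonMangoldt_nonneg (mul_nonneg (hterm _) (WW_nonneg _ _ _)))
  rw [mem_erase, PH, mem_filter, mem_Ioc] at hm
  refine mul_le_mul_of_nonneg_left ?_ ArithmeticFunction.vonMangoldt_nonneg
  have hc : Nat.Coprime q m := (Nat.coprime_primes hq hm.2.2).2 (Ne.symm hm.1)
  have h1 : WW β q m = (m : ℝ) ^ (β - 1) := by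
    unfold WW
    rw [if_pos ⟨hc, hm.2.2.squarefree⟩]
  have hm0 : (0 : ℝ) < m := by exact_mod_cast hm.2.2.pos
  have h2 : (M : ℝ) ^ (β - 1) ≤ (m : ℝ) ^ (β - 1) :=
    Real.rpow_le_rpow_of_nonpos hm0 (by exact_mod_cast hm.2.1.2) (by linarith)
  have h3 : 1 ≤ lg l (q * m) := by
    unfold lg
    split_ifs
    · rw [Real.le_log_iff_exp_le (by
        have := Nat.mul_pos hq.pos hm.2.2.pos
        exact_mod_cast this)]
      have h4 : 4 ≤ q * m := Nat.mul_le_mul hq.two_le hm.2.2.two_le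
      have h5 : (4 : ℝ) ≤ ((q * m : ℕ) : ℝ) := by exact_mod_cast h4
      have h6 := Real.exp_one_lt_d9
      linarith
    · exact le_rfl
  rw [h1]
  calc (M : ℝ) ^ (β - 1) ≤ (m : ℝ) ^ (β - 1) := h2
    _ = 1 * (m : ℝ) ^ (β - 1) := (one_mul _).symm
    _ ≤ _ := mul_le_mul_of_nonneg_right h3 (by positivity)

theorem sum_N {Z q m : ℕ} (hq : q.Prime) (hqZ : q ≤ Z) (hm : 2 * (q * m) ≤ Z) :
    ∑ p ∈ (Ioc Z (Z + Z / 2)).filter Nat.Prime, Real.log p ≤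
      ∑ N ∈ (Ioc Z (2 * Z)).filter (fun N => Nat.Coprime q N),
        ArithmeticFunction.vonMangoldt (N - q * m) := by
  classical
  have hinj : Set.InjOn (fun p => p + q * m) ((Ioc Z (Z + Z / 2)).filter Nat.Prime : Finset ℕ) :=
    fun a _ b _ hab => Nat.add_right_cancel hab
  have h1 : ∑ N ∈ ((Ioc Z (Z + Z / 2)).filter Nat.Prime).image (fun p => p + q * m),
      ArithmeticFunction.vonMangoldt (N - q * m) =
      ∑ p ∈ (Ioc Z (Z + Z / 2)).filter Nat.Prime, Real.log p := by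
    rw [sum_image hinj]
    refine sum_congr rfl fun p hp => ?_
    rw [Nat.add_sub_cancel, ArithmeticFunction.vonMangoldt_apply_prime (mem_filter.1 hp).2]
  rw [← h1]
  refine sum_le_sum_of_subset_of_nonneg ?_ fun _ _ _ => ArithmeticFunction.vonMangoldt_nonneg
  intro N hN
  obtain ⟨p, hp, rfl⟩ := mem_image.1 hN
  rw [mem_filter, mem_Ioc] at hp
  rw [mem_filter, mem_Ioc]
  refine ⟨by omega, ?_⟩
  rw [Nat.Prime.coprime_iff_not_dvd hq]
  intro hd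
  have h2 : q ∣ p := (Nat.dvd_add_left (Dvd.intro m rfl)).1 hd
  have h3 := (Nat.prime_dvd_prime_iff_eq hq hp.2).1 h2
  omega

theorem main_sum {β : ℝ} (hβ : β ≤ 1) (l : Bool) {Q M Z : ℕ} (hQZ : Q ≤ Z) (hM : 2 * (Q * M) ≤ Z)
    (hw : (Z : ℝ) / 4 ≤ ∑ p ∈ (Ioc Z (Z + Z / 2)).filter Nat.Prime, Real.log p) :
    ((PH Q).card : ℝ) * ((((PH M).card : ℝ) - 1) * (M : ℝ) ^ (β - 1) * ((Z : ℝ) / 4)) ≤
      ∑ N ∈ Ioc Z (2 * Z), ∑ q ∈ (PH Q).filter (fun q => Nat.Coprime q N), BB β l N q := by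
  classical
  have h1 : ∑ N ∈ Ioc Z (2 * Z), ∑ q ∈ (PH Q).filter (fun q => Nat.Coprime q N), BB β l N q =
      ∑ q ∈ PH Q, ∑ N ∈ (Ioc Z (2 * Z)).filter (fun N => Nat.Coprime q N), BB β l N q := by
    simp only [sum_filter]
    exact sum_comm
  rw [h1, ← nsmul_eq_mul]
  refine card_nsmul_le_sum _ _ _ fun q hq => ?_
  have hqp : q.Prime := (mem_filter.1 hq).2
  have hqQ : q ≤ Q := (mem_Ioc.1 (mem_filter.1 hq).1).2
  have hqM : 2 * (q * M) ≤ Z := by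
    have := Nat.mul_le_mul_right M hqQ
    omega
  have h2 : ∑ N ∈ (Ioc Z (2 * Z)).filter (fun N => Nat.Coprime q N),
      ∑ m ∈ (PH M).erase q, ArithmeticFunction.vonMangoldt (N - q * m) * (M : ℝ) ^ (β - 1) ≤
      ∑ N ∈ (Ioc Z (2 * Z)).filter (fun N => Nat.Coprime q N), BB β l N q :=
    sum_le_sum fun N hN => BB_ge hβ l hqp hqM (mem_Ioc.1 (mem_filter.1 hN).1).1
  refine le_trans ?_ h2
  rw [sum_comm]
  have h3 : ∀ m ∈ (PH M).erase q, (Z : ℝ) / 4 * (M : ℝ) ^ (β - 1) ≤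
      ∑ N ∈ (Ioc Z (2 * Z)).filter (fun N => Nat.Coprime q N),
        ArithmeticFunction.vonMangoldt (N - q * m) * (M : ℝ) ^ (β - 1) := by
    intro m hm
    rw [← sum_mul]
    refine mul_le_mul_of_nonneg_right ?_ (by positivity)
    refine hw.trans (sum_N hqp (hqQ.trans hQZ) ?_)
    rw [mem_erase, PH, mem_filter, mem_Ioc] at hm
    have := Nat.mul_le_mul_left q hm.2.1.2
    omega
  have h4 := card_nsmul_le_sum _ _ _ h3
  rw [nsmul_eq_mul] at h4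
  refine le_trans ?_ h4
  have h5 : ((PH M).card : ℝ) - 1 ≤ (((PH M).erase q).card : ℝ) := by
    have : (PH M).card ≤ ((PH M).erase q).card + 1 := by
      have := pred_card_le_card_erase (s := PH M) (a := q)
      omega
    have h6 : ((PH M).card : ℝ) ≤ (((PH M).erase q).card : ℝ) + 1 := by exact_mod_cast this
    linarith
  calc (((PH M).card : ℝ) - 1) * (M : ℝ) ^ (β - 1) * ((Z : ℝ) / 4) =
      (((PH M).card : ℝ) - 1) * ((Z : ℝ) / 4 * (M : ℝ) ^ (β - 1)) := by ring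
    _ ≤ _ := mul_le_mul_of_nonneg_right h5 (by positivity)

theorem second_sum {Q : ℕ} (hQ : 2 ≤ Q) (S : Finset ℕ) (hS : S ⊆ PH Q) :
    ∑ q ∈ S, 1 / (Nat.totient q : ℝ) ≤ 4 := by
  have h1 : ∀ q ∈ PH Q, 1 / (Nat.totient q : ℝ) ≤ 4 / Q := by
    intro q hq
    rw [PH, mem_filter, mem_Ioc] at hq
    rw [Nat.totient_prime hq.2]
    have h2 : Q ≤ 4 * (q - 1) := by omega
    have h3 : (Q : ℝ) ≤ 4 * ((q - 1 : ℕ) : ℝ) := by exact_mod_cast h2
    have h4 : (0 : ℝ) < ((q - 1 : ℕ) : ℝ) := by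
      have : 0 < q - 1 := by have := hq.2.two_le; omega
      exact_mod_cast this
    have h5 : (0 : ℝ) < Q := by
      have : 0 < Q := by omega
      exact_mod_cast this
    rw [div_le_div_iff₀ h4 h5]
    linarith
  refine (sum_le_sum_of_subset_of_nonneg hS fun _ _ _ => by positivity).trans ?_
  refine (sum_le_card_nsmul _ _ _ h1).trans ?_
  rw [nsmul_eq_mul]
  have h5 : (0 : ℝ) < Q := by
    have : 0 < Q := by omega
    exact_mod_cast this
  have h6 : ((PH Q).card : ℝ) ≤ Q := by exact_mod_cast card_PH_le Q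
  calc ((PH Q).card : ℝ) * (4 / Q) ≤ Q * (4 / Q) := mul_le_mul_of_nonneg_right h6 (by positivity)
    _ = 4 := by field_simp

variable {ν : Measure (ℕ → Bool)} [IsProbabilityMeasure ν]

theorem total {β : ℝ} (hβ0 : 0 ≤ β) (hβ : β ≤ 1)
    (h : ∀ s : Finset ℕ, ∫ ω, ∏ k ∈ s, sg ω k ∂ν = ∏ k ∈ s, -(pr k : ℝ) ^ (β - 1))
    (l : Bool) {Q M Z : ℕ} (hQ : 2 ≤ Q) (hQZ : Q ≤ Z) (hM : 2 * (Q * M) ≤ Z) {θ : ℝ} (hθ : 0 ≤ θ)
    (hQθ : (Q : ℝ) ≤ (Z : ℝ) ^ θ)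
    (hw : (Z : ℝ) / 4 ≤ ∑ p ∈ (Ioc Z (Z + Z / 2)).filter Nat.Prime, Real.log p) :
    ((PH Q).card : ℝ) * ((((PH M).card : ℝ) - 1) * (M : ℝ) ^ (β - 1) * ((Z : ℝ) / 4)) -
      Z * (4 * (2 * (1 + Real.log (2 * Z + 1)) ^ 3 * (2 * Z : ℝ) ^ β)) ≤
      ∑ N ∈ Ioc Z (2 * Z), ∫ ω, Dg (gf (cm ω) l) N θ ∂ν := by
  classical
  have h1 : ∀ N ∈ Ioc Z (2 * Z), ∑ q ∈ (PH Q).filter (fun q => Nat.Coprime q N), BB β l N q -
      4 * (2 * (1 + Real.log (2 * Z + 1)) ^ 3 * (2 * Z : ℝ) ^ β) ≤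
      ∫ ω, Dg (gf (cm ω) l) N θ ∂ν := by
    intro N hN
    rw [mem_Ioc] at hN
    have hN1 : 1 ≤ N := by omega
    refine le_trans ?_ (low_S hβ0 hβ h l hN1 θ ((PH Q).filter (fun q => Nat.Coprime q N)) ?_)
    · rw [sum_sub_distrib, ← sum_mul]
      refine sub_le_sub_left ?_ _
      have hZ0 : (0 : ℝ) ≤ Z := Nat.cast_nonneg Z
      have hN0 : (0 : ℝ) ≤ N := Nat.cast_nonneg N
      have hNZ : (N : ℝ) ≤ 2 * Z := by exact_mod_cast hN.2
      have hl0 : 0 ≤ Real.log ((N : ℝ) + 1) := Real.log_nonneg (by linarith)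
      have hl1 : Real.log ((N : ℝ) + 1) ≤ Real.log (2 * Z + 1) :=
        Real.log_le_log (by linarith) (by linarith)
      refine mul_le_mul (second_sum hQ _ (filter_subset _ _)) ?_ (by positivity) (by norm_num)
      refine mul_le_mul ?_ (Real.rpow_le_rpow hN0 hNZ hβ0) (by positivity)
        (mul_nonneg (by norm_num) (pow_nonneg (by linarith) 3))
      refine mul_le_mul_of_nonneg_left ?_ (by norm_num)
      exact pow_le_pow_left₀ (by linarith) (by linarith) 3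
    · intro q hq
      rw [mem_filter, PH, mem_filter, mem_Ioc] at hq
      refine ⟨hq.1.2, by omega, ?_, hq.2⟩
      calc (q : ℝ) ≤ Q := by exact_mod_cast hq.1.1.2
        _ ≤ (Z : ℝ) ^ θ := hQθ
        _ ≤ (N : ℝ) ^ θ := Real.rpow_le_rpow (Nat.cast_nonneg Z) (by exact_mod_cast hN.1.le) hθ
  refine le_trans ?_ (sum_le_sum h1)
  rw [sum_sub_distrib, sum_const, Nat.card_Ioc, nsmul_eq_mul]
  have h2 : 2 * Z - Z = Z := by omega
  rw [h2]
  exact sub_le_sub_right (main_sum hβ l hQZ hM hw) _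

/-! ## asymptotics -/

theorem asym {β θ δ : ℝ} (hβ : 1 / 2 < β) (hβ1 : β < 1) (hθ : 0 < θ) (hθ1 : θ < 1) (hδ : 0 < δ)
    (hδ1 : 4 * δ ≤ θ * (1 - β)) :
    ∀ᶠ Z : ℕ in atTop, ∃ Q M : ℕ, 2 ≤ Q ∧ Q ≤ Z ∧ 2 * (Q * M) ≤ Z ∧ (Q : ℝ) ≤ (Z : ℝ) ^ θ ∧
      (Z : ℝ) * (2 * (Z : ℝ) ^ (β + θ * (1 - β) - 2 * δ)) ≤
      ((PH Q).card : ℝ) * ((((PH M).card : ℝ) - 1) * (M : ℝ) ^ (β - 1) * ((Z : ℝ) / 4)) -
      Z * (4 * (2 * (1 + Real.log (2 * Z + 1)) ^ 3 * (2 * Z : ℝ) ^ β)) := by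
  obtain ⟨x0, hx0⟩ := card_PH
  have t1 : Tendsto (fun Z : ℕ => (Z : ℝ) ^ θ) atTop atTop :=
    (tendsto_rpow_atTop hθ).comp tendsto_natCast_atTop_atTop
  have t2 : Tendsto (fun Z : ℕ => (Z : ℝ) ^ (1 - θ)) atTop atTop :=
    (tendsto_rpow_atTop (by linarith)).comp tendsto_natCast_atTop_atTop
  have p1 := Pool.Agent.Q163.HC.polylog 1024 δ hδ
  have p2 := Pool.Agent.Q163.HC.polylog 32 (1 - θ) (by linarith)
  filter_upwards [p1, p2, t1.eventually_ge_atTop (2 * (x0 : ℝ) + 4),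
    t2.eventually_ge_atTop (4 * (x0 : ℝ) + 8), eventually_ge_atTop 2] with Z hp1 hp2 h1 h2 hZ
  have hZ0 : (0 : ℝ) < Z := by
    have : 0 < Z := by omega
    exact_mod_cast this
  have hZ1 : (1 : ℝ) ≤ Z := by
    have : 1 ≤ Z := by omega
    exact_mod_cast this
  set L : ℝ := 1 + Real.log ((Z : ℝ) + 1) with hL
  have hlog1 : 0 < Real.log ((Z : ℝ) + 1) := Real.log_pos (by linarith)
  have hL1 : 1 ≤ L := by linarith
  have hL0 : 0 < L := by linarith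
  have hx0' : (0 : ℝ) ≤ x0 := Nat.cast_nonneg x0
  -- Q
  set Q : ℕ := ⌊(Z : ℝ) ^ θ⌋₊ with hQ
  have hQle : (Q : ℝ) ≤ (Z : ℝ) ^ θ := Nat.floor_le (by positivity)
  have hQge : (Z : ℝ) ^ θ / 2 ≤ Q := by
    have := Nat.lt_floor_add_one ((Z : ℝ) ^ θ)
    rw [← hQ] at this
    linarith
  have hQx : x0 + 2 ≤ Q := by
    have : (x0 : ℝ) + 2 ≤ Q := by linarith
    exact_mod_cast this
  have hQ0 : (0 : ℝ) < Q := by
    have : 0 < Q := by omega
    exact_mod_cast this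
  have hZθ : (Z : ℝ) ^ θ ≤ Z := by
    calc (Z : ℝ) ^ θ ≤ (Z : ℝ) ^ (1 : ℝ) := Real.rpow_le_rpow_of_exponent_le hZ1 hθ1.le
      _ = Z := Real.rpow_one _
  have hQZ : Q ≤ Z := by exact_mod_cast hQle.trans hZθ
  -- M
  set M : ℕ := Z / (2 * Q) with hM
  have hMle : 2 * (Q * M) ≤ Z := by
    have := Nat.mul_div_le Z (2 * Q)
    rw [← hM] at this
    calc 2 * (Q * M) = 2 * Q * M := by ring
      _ ≤ Z := this
  have hsplit : (Z : ℝ) ^ (1 - θ) * (Z : ℝ) ^ θ = Z := by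
    rw [← Real.rpow_add hZ0]
    norm_num
  have hMge : (Z : ℝ) ^ (1 - θ) / 4 ≤ M := by
    have h3 : (Z : ℝ) / (2 * Q : ℕ) < M + 1 := by
      have h4 := Nat.lt_floor_add_one ((Z : ℝ) / (2 * Q : ℕ))
      rw [Nat.floor_div_eq_div] at h4
      exact h4
    have h4 : (Z : ℝ) ^ (1 - θ) / 2 ≤ (Z : ℝ) / (2 * Q : ℕ) := by
      push_cast
      rw [div_le_div_iff₀ (by norm_num) (by positivity)]
      calc (Z : ℝ) ^ (1 - θ) * (2 * Q) ≤ (Z : ℝ) ^ (1 - θ) * (2 * (Z : ℝ) ^ θ) :=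
            mul_le_mul_of_nonneg_left (by linarith) (by positivity)
        _ = ((Z : ℝ) ^ (1 - θ) * (Z : ℝ) ^ θ) * 2 := by ring
        _ = (Z : ℝ) * 2 := by rw [hsplit]
    linarith
  have hMx : x0 ≤ M := by
    have : (x0 : ℝ) ≤ M := by linarith
    exact_mod_cast this
  have hM0 : (0 : ℝ) < M := by
    have : (0 : ℝ) < (Z : ℝ) ^ (1 - θ) / 4 := by positivity
    linarith
  have hMZ : M ≤ Z := Nat.div_le_self _ _
  -- the numbers of primes
  have hlogZ : Real.log Z ≤ L := by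
    have := Real.log_le_log hZ0 (by linarith : (Z : ℝ) ≤ Z + 1)
    linarith
  have hc : ∀ n : ℕ, x0 ≤ n → n ≤ Z → 0 < (n : ℝ) → (n : ℝ) / (4 * L) ≤ (PH n).card := by
    intro n hn hnZ hn0
    rw [div_le_iff₀ (by positivity)]
    have h3 := hx0 n hn
    have h4 : Real.log n ≤ L :=
      (Real.log_le_log hn0 (by exact_mod_cast hnZ)).trans hlogZ
    have h5 : ((PH n).card : ℝ) * Real.log n ≤ (PH n).card * L :=
      mul_le_mul_of_nonneg_left h4 (Nat.cast_nonneg _)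
    linarith
  have hcQ := hc Q (by omega) hQZ hQ0
  have hcM := hc M hMx hMZ hM0
  have hL4 : L ≤ L ^ 4 := by
    calc L = L ^ 1 := (pow_one _).symm
      _ ≤ L ^ 4 := pow_le_pow_right₀ hL1 (by norm_num)
  have hcM1 : (M : ℝ) / (8 * L) ≤ (PH M).card - 1 := by
    have h3 : 1 ≤ (M : ℝ) / (8 * L) := by
      rw [le_div_iff₀ (by positivity)]
      linarith
    have h4 : (M : ℝ) / (4 * L) = (M : ℝ) / (8 * L) + (M : ℝ) / (8 * L) := by
      field_simp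
      norm_num
    linarith
  -- powers
  have hMβ : (Z : ℝ) ^ (β * (1 - θ)) / 4 ≤ (M : ℝ) ^ β := by
    have h3 : ((Z : ℝ) ^ (1 - θ) / 4) ^ β ≤ (M : ℝ) ^ β :=
      Real.rpow_le_rpow (by positivity) hMge (by linarith)
    refine le_trans ?_ h3
    rw [Real.div_rpow (by positivity) (by norm_num), ← Real.rpow_mul hZ0.le, mul_comm β]
    refine div_le_div_of_nonneg_left (by positivity) (by positivity) ?_
    calc (4 : ℝ) ^ β ≤ (4 : ℝ) ^ (1 : ℝ) := Real.rpow_le_rpow_of_exponent_le (by norm_num) hβ1.le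
      _ = 4 := Real.rpow_one _
  set α : ℝ := β + θ * (1 - β) with hα
  have hmain : (Z : ℝ) * ((Z : ℝ) ^ α / (1024 * L ^ 2)) ≤
      ((PH Q).card : ℝ) * ((((PH M).card : ℝ) - 1) * (M : ℝ) ^ (β - 1) * ((Z : ℝ) / 4)) := by
    have h3 : (Q : ℝ) / (4 * L) * ((M : ℝ) / (8 * L) * (M : ℝ) ^ (β - 1) * ((Z : ℝ) / 4)) ≤
        ((PH Q).card : ℝ) * ((((PH M).card : ℝ) - 1) * (M : ℝ) ^ (β - 1) * ((Z : ℝ) / 4)) := by
      refine mul_le_mul hcQ ?_ (by positivity) (Nat.cast_nonneg _)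
      refine mul_le_mul_of_nonneg_right ?_ (by positivity)
      exact mul_le_mul_of_nonneg_right hcM1 (by positivity)
    refine le_trans ?_ h3
    have h4 : (M : ℝ) * (M : ℝ) ^ (β - 1) = (M : ℝ) ^ β := by
      rw [mul_comm, ← Real.rpow_add_one hM0.ne', sub_add_cancel]
    have h5 : (Q : ℝ) / (4 * L) * ((M : ℝ) / (8 * L) * (M : ℝ) ^ (β - 1) * ((Z : ℝ) / 4)) =
        (Z : ℝ) * ((Q : ℝ) * (M : ℝ) ^ β / (128 * L ^ 2)) := by
      rw [← h4]
      field_simp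
      norm_num
    rw [h5]
    refine mul_le_mul_of_nonneg_left ?_ hZ0.le
    have h6 : (Z : ℝ) ^ α / 8 ≤ (Q : ℝ) * (M : ℝ) ^ β := by
      calc (Z : ℝ) ^ α / 8 = ((Z : ℝ) ^ θ / 2) * ((Z : ℝ) ^ (β * (1 - θ)) / 4) := by
            have : α = θ + β * (1 - θ) := by
              rw [hα]
              ring
            rw [this, Real.rpow_add hZ0]
            ring
        _ ≤ _ := mul_le_mul hQge hMβ (by positivity) hQ0.le
    have h7 : (Z : ℝ) ^ α / (1024 * L ^ 2) = ((Z : ℝ) ^ α / 8) / (128 * L ^ 2) := by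
      field_simp
      norm_num
    rw [h7]
    exact div_le_div_of_nonneg_right h6 (by positivity)
  have hsec : 4 * (2 * (1 + Real.log (2 * Z + 1)) ^ 3 * (2 * Z : ℝ) ^ β) ≤ (Z : ℝ) ^ (β + δ) := by
    have h3 : 1 + Real.log (2 * Z + 1) ≤ 2 * L := by
      have h4 : Real.log (2 * Z + 1) ≤ Real.log (((Z : ℝ) + 1) * (Z + 1)) := by
        refine Real.log_le_log (by linarith) ?_
        nlinarith
      rw [Real.log_mul (by linarith) (by linarith)] at h4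
      linarith
    have h4 : 0 ≤ 1 + Real.log (2 * (Z : ℝ) + 1) := by
      have := Real.log_nonneg (by linarith : (1 : ℝ) ≤ 2 * Z + 1)
      linarith
    have h5 : (1 + Real.log (2 * (Z : ℝ) + 1)) ^ 3 ≤ 8 * L ^ 4 := by
      calc (1 + Real.log (2 * (Z : ℝ) + 1)) ^ 3 ≤ (2 * L) ^ 3 := pow_le_pow_left₀ h4 h3 3
        _ = 8 * L ^ 3 := by ring
        _ ≤ 8 * L ^ 4 := by
            refine mul_le_mul_of_nonneg_left ?_ (by norm_num)
            exact pow_le_pow_right₀ hL1 (by norm_num)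
    have h6 : (2 * Z : ℝ) ^ β ≤ 2 * (Z : ℝ) ^ β := by
      rw [Real.mul_rpow (by norm_num) hZ0.le]
      refine mul_le_mul_of_nonneg_right ?_ (by positivity)
      calc (2 : ℝ) ^ β ≤ (2 : ℝ) ^ (1 : ℝ) := Real.rpow_le_rpow_of_exponent_le (by norm_num) hβ1.le
        _ = 2 := Real.rpow_one _
    calc 4 * (2 * (1 + Real.log (2 * Z + 1)) ^ 3 * (2 * Z : ℝ) ^ β) ≤
        4 * (2 * (8 * L ^ 4) * (2 * (Z : ℝ) ^ β)) := by
          refine mul_le_mul_of_nonneg_left ?_ (by norm_num)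
          refine mul_le_mul ?_ h6 (by positivity) (by positivity)
          exact mul_le_mul_of_nonneg_left h5 (by norm_num)
      _ = (128 * L ^ 4) * (Z : ℝ) ^ β := by ring
      _ ≤ (1024 * L ^ 4) * (Z : ℝ) ^ β := by
          refine mul_le_mul_of_nonneg_right ?_ (by positivity)
          have : 0 ≤ L ^ 4 := by positivity
          linarith
      _ ≤ (Z : ℝ) ^ δ * (Z : ℝ) ^ β := mul_le_mul_of_nonneg_right hp1 (by positivity)
      _ = (Z : ℝ) ^ (β + δ) := by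
          rw [← Real.rpow_add hZ0, add_comm]
  refine ⟨Q, M, by omega, hQZ, hMle, hQle, ?_⟩
  have h8 : (Z : ℝ) * (2 * (Z : ℝ) ^ (α - 2 * δ)) ≤
      (Z : ℝ) * ((Z : ℝ) ^ α / (1024 * L ^ 2)) - Z * (Z : ℝ) ^ (β + δ) := by
    rw [← mul_sub]
    refine mul_le_mul_of_nonneg_left ?_ hZ0.le
    have h9 : (Z : ℝ) ^ (α - δ) ≤ (Z : ℝ) ^ α / (1024 * L ^ 2) := by
      rw [le_div_iff₀ (by positivity)]
      calc (Z : ℝ) ^ (α - δ) * (1024 * L ^ 2) ≤ (Z : ℝ) ^ (α - δ) * (Z : ℝ) ^ δ := by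
            refine mul_le_mul_of_nonneg_left (le_trans ?_ hp1) (by positivity)
            refine mul_le_mul_of_nonneg_left ?_ (by norm_num)
            exact pow_le_pow_right₀ hL1 (by norm_num)
        _ = (Z : ℝ) ^ α := by
            rw [← Real.rpow_add hZ0]
            congr 1
            ring
    have h10 : (Z : ℝ) ^ (β + δ) ≤ (Z : ℝ) ^ (α - 2 * δ) :=
      Real.rpow_le_rpow_of_exponent_le hZ1 (by
        rw [hα]
        linarith)
    have h11 : 3 * (Z : ℝ) ^ (α - 2 * δ) ≤ (Z : ℝ) ^ (α - δ) := by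
      have h12 : (Z : ℝ) ^ (α - δ) = (Z : ℝ) ^ δ * (Z : ℝ) ^ (α - 2 * δ) := by
        rw [← Real.rpow_add hZ0]
        congr 1
        ring
      rw [h12]
      refine mul_le_mul_of_nonneg_right ?_ (by positivity)
      have h13 : 1 ≤ L ^ 4 := one_le_pow₀ hL1
      linarith
    linarith
  have h9 : (Z : ℝ) * (4 * (2 * (1 + Real.log (2 * Z + 1)) ^ 3 * (2 * Z : ℝ) ^ β)) ≤
      Z * (Z : ℝ) ^ (β + δ) := mul_le_mul_of_nonneg_left hsec hZ0.le
  linarith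

theorem dlow : Pool.Agent.Q255.EP.S_DLOW := by
  intro ν _ β hβ hβ1 h θ ε hθ hθ1 hε
  set δ : ℝ := min ε (θ * (1 - β)) / 4 with hδ
  have hpos : 0 < θ * (1 - β) := mul_pos hθ (by linarith)
  have hδ0 : 0 < δ := by
    have := lt_min hε hpos
    linarith
  have hδ1 : 4 * δ ≤ θ * (1 - β) := by
    have := min_le_right ε (θ * (1 - β))
    linarith
  have hδ2 : 4 * δ ≤ ε := by
    have := min_le_left ε (θ * (1 - β))
    linarith
  obtain ⟨x0, hx0⟩ := prime_window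
  filter_upwards [asym hβ hβ1 hθ hθ1 hδ0 hδ1, eventually_ge_atTop x0, eventually_ge_atTop 1] with
    Z hZ hZ0 hZ1 l
  obtain ⟨Q, M, hQ, hQZ, hM, hQθ, hmain⟩ := hZ
  have ht := total (ν := ν) (by linarith) hβ1.le h l hQ hQZ hM hθ.le hQθ (hx0 Z hZ0)
  have hZ0' : (1 : ℝ) ≤ Z := by exact_mod_cast hZ1
  set α : ℝ := β + θ * (1 - β) with hα
  have hα1 : α ≤ 1 := by
    have : θ * (1 - β) ≤ 1 * (1 - β) := mul_le_mul_of_nonneg_right hθ1.le (by linarith)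
    linarith
  have h1 : ∑ N ∈ Ioc Z (2 * Z), (N : ℝ) ^ (α - ε) ≤ (Z : ℝ) * (2 * (Z : ℝ) ^ (α - 2 * δ)) := by
    have h2 : ∀ N ∈ Ioc Z (2 * Z), (N : ℝ) ^ (α - ε) ≤ 2 * (Z : ℝ) ^ (α - 2 * δ) := by
      intro N hN
      rw [mem_Ioc] at hN
      have hN1 : (1 : ℝ) ≤ N := by
        have : 1 ≤ N := by omega
        exact_mod_cast this
      have hNZ : (N : ℝ) ≤ 2 * Z := by exact_mod_cast hN.2
      have h3 : 0 ≤ α - 2 * δ := by linarith
      calc (N : ℝ) ^ (α - ε) ≤ (N : ℝ) ^ (α - 2 * δ) :=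
            Real.rpow_le_rpow_of_exponent_le hN1 (by linarith)
        _ ≤ (2 * Z : ℝ) ^ (α - 2 * δ) := Real.rpow_le_rpow (by linarith) hNZ h3
        _ = (2 : ℝ) ^ (α - 2 * δ) * (Z : ℝ) ^ (α - 2 * δ) :=
            Real.mul_rpow (by norm_num) (by linarith)
        _ ≤ 2 * (Z : ℝ) ^ (α - 2 * δ) := by
            refine mul_le_mul_of_nonneg_right ?_ (by positivity)
            calc (2 : ℝ) ^ (α - 2 * δ) ≤ (2 : ℝ) ^ (1 : ℝ) :=
                  Real.rpow_le_rpow_of_exponent_le (by norm_num) (by linarith)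
              _ = 2 := Real.rpow_one _
    refine (sum_le_card_nsmul _ _ _ h2).trans (le_of_eq ?_)
    rw [Nat.card_Ioc, nsmul_eq_mul]
    have : 2 * Z - Z = Z := by omega
    rw [this]
  have h2 : ∑ N ∈ Ioc Z (2 * Z), (N : ℝ) ^ (α - ε) ≤
      ∑ N ∈ Ioc Z (2 * Z), ∫ ω, Dg (gf (cm ω) l) N θ ∂ν := h1.trans (hmain.trans ht)
  obtain ⟨N, hN, hN'⟩ := exists_le_of_sum_le (by
    rw [nonempty_Ioc]
    omega) h2
  exact ⟨N, (mem_Ioc.1 hN).1, (mem_Ioc.1 hN).2, hN'⟩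

end Pool.Agent.Q149.EP
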