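import Pool.Agent.Q255.EP.Stm2
import Pool.Agent.Cov.PNT

/-!
# Project EP (helper255), job DLOW, part a: expectations
-/

set_option autoImplicit false
set_option linter.unusedSectionVars false
set_option linter.unusedVariables false

namespace Pool.Agent.Q149.EP

open Finset Filter Topology MeasureTheory
open Pool.Agent.Q255.IC (pr sg)
open Pool.Agent.Q255.EP (cm)
open Pool.Agent.Q163.HC (lg gf Dg diag_eq)
open Pool.Agent.Q163.RP (mult)

/-- the values at the primes -/
noncomputable def cc (ω : ℕ → Bool) (p : ℕ) : ℝ := sg ω (Nat.count Nat.Prime p)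

theorem sg_abs (ω : ℕ → Bool) (k : ℕ) : |sg ω k| = 1 := by
  unfold sg
  split_ifs
  · exact abs_one
  · rw [abs_neg, abs_one]

theorem cm_eq (ω : ℕ → Bool) (n : ℕ) : cm ω n = mult (cc ω) n := rfl

theorem cm_abs (ω : ℕ → Bool) (n : ℕ) : |cm ω n| = 1 :=
  Pool.Agent.Q163.RP.abs_mult _ (fun p => sg_abs ω _) n

theorem cm_sq (ω : ℕ → Bool) (n : ℕ) : cm ω n * cm ω n = 1 := by
  rw [← abs_mul_abs_self, cm_abs, one_mul]

theorem cm_mul (ω : ℕ → Bool) {m n : ℕ} (hm : m ≠ 0) (hn : n ≠ 0) :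
    cm ω (m * n) = cm ω m * cm ω n := Pool.Agent.Q163.RP.mult_mul _ hm hn

theorem cm_cancel (ω : ℕ → Bool) {m n : ℕ} (hm : m ≠ 0) (hn : n ≠ 0) :
    cm ω m * cm ω (m * n) = cm ω n := by
  rw [cm_mul ω hm hn, ← mul_assoc, cm_sq, one_mul]

theorem cm_meas (n : ℕ) : Measurable fun ω => cm ω n := by
  have h1 : (fun ω => cm ω n) = fun ω => ∏ p ∈ n.primeFactors, cc ω p ^ n.factorization p := rfl
  rw [h1]
  refine Finset.measurable_prod _ fun p _ => ?_
  refine Measurable.pow_const ?_ _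
  unfold cc sg
  have h2 : Measurable fun b : Bool => if b then (1 : ℝ) else -1 := measurable_of_countable _
  exact h2.comp (measurable_pi_apply _)

variable {ν : Measure (ℕ → Bool)} [IsProbabilityMeasure ν]

theorem cm_int (n : ℕ) : Integrable (fun ω => cm ω n) ν :=
  (integrable_const (1 : ℝ)).mono' (cm_meas n).aestronglyMeasurable
    (Eventually.of_forall fun ω => by rw [Real.norm_eq_abs, cm_abs])

theorem cm2_int (m n : ℕ) : Integrable (fun ω => cm ω m * cm ω n) ν :=
  (integrable_const (1 : ℝ)).mono' ((cm_meas m).mul (cm_meas n)).aestronglyMeasurable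
    (Eventually.of_forall fun ω => by rw [Real.norm_eq_abs, abs_mul, cm_abs, cm_abs, one_mul])

/-- the expectation of `f(n)` for squarefree `n` -/
theorem exp_cm {β : ℝ}
    (h : ∀ s : Finset ℕ, ∫ ω, ∏ k ∈ s, sg ω k ∂ν = ∏ k ∈ s, -(pr k : ℝ) ^ (β - 1))
    {n : ℕ} (hn : Squarefree n) :
    ∫ ω, cm ω n ∂ν = ((ArithmeticFunction.moebius n : ℤ) : ℝ) * (n : ℝ) ^ (β - 1) := by
  classical
  have hinj : Set.InjOn (Nat.count Nat.Prime) n.primeFactors := by
    intro p hp q hq hpq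
    exact Nat.count_injective (Nat.prime_of_mem_primeFactors hp) (Nat.prime_of_mem_primeFactors hq)
      hpq
  have h1 : ∀ ω, cm ω n = ∏ k ∈ n.primeFactors.image (Nat.count Nat.Prime), sg ω k := by
    intro ω
    rw [Finset.prod_image hinj]
    have h2 : cm ω n = ∏ p ∈ n.primeFactors, cc ω p ^ n.factorization p := rfl
    rw [h2]
    refine Finset.prod_congr rfl fun p hp => ?_
    rw [Nat.factorization_eq_one_of_squarefree hn (Nat.prime_of_mem_primeFactors hp)
      (Nat.dvd_of_mem_primeFactors hp), pow_one]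
    rfl
  have h3 : ∫ ω, cm ω n ∂ν = ∫ ω, ∏ k ∈ n.primeFactors.image (Nat.count Nat.Prime), sg ω k ∂ν := by
    refine integral_congr_ae (Eventually.of_forall fun ω => ?_)
    exact h1 ω
  rw [h3, h, Finset.prod_image hinj]
  have h4 : ∀ p ∈ n.primeFactors, -(pr (Nat.count Nat.Prime p) : ℝ) ^ (β - 1) =
      (-1) * (p : ℝ) ^ (β - 1) := by
    intro p hp
    have h5 : pr (Nat.count Nat.Prime p) = p := Nat.nth_count (Nat.prime_of_mem_primeFactors hp)
    rw [h5, neg_one_mul]
  rw [Finset.prod_congr rfl h4, Finset.prod_mul_distrib, Finset.prod_const]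
  have h6 : ∏ p ∈ n.primeFactors, (p : ℝ) ^ (β - 1) = (n : ℝ) ^ (β - 1) := by
    rw [Real.finsetProd_rpow _ _ fun p _ => Nat.cast_nonneg p, ← Nat.cast_prod,
      Nat.prod_primeFactors_of_squarefree hn]
  have h7 : ((ArithmeticFunction.moebius n : ℤ) : ℝ) = (-1) ^ n.primeFactors.card := by
    rw [ArithmeticFunction.moebius_apply_of_squarefree hn,
      ← (ArithmeticFunction.cardDistinctFactors_eq_cardFactors_iff_squarefree hn.ne_zero).2 hn,
      ArithmeticFunction.cardDistinctFactors_apply, Nat.primeFactors, List.card_toFinset]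
    push_cast
    rfl
  rw [h6, h7]

/-- the weights of the diagonal terms -/
noncomputable def WW (β : ℝ) (q m : ℕ) : ℝ :=
  if Nat.Coprime q m ∧ Squarefree m then (m : ℝ) ^ (β - 1) else 0

theorem WW_nonneg (β : ℝ) (q m : ℕ) : 0 ≤ WW β q m := by
  unfold WW
  split_ifs
  · positivity
  · exact le_rfl

theorem exp_diag {β : ℝ}
    (h : ∀ s : Finset ℕ, ∫ ω, ∏ k ∈ s, sg ω k ∂ν = ∏ k ∈ s, -(pr k : ℝ) ^ (β - 1))
    {q m : ℕ} (hq : q.Prime) (hm : 1 ≤ m) :
    ((ArithmeticFunction.moebius (q * m) : ℤ) : ℝ) * ∫ ω, cm ω q * cm ω (q * m) ∂ν =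
      - WW β q m := by
  have h1 : ∫ ω, cm ω q * cm ω (q * m) ∂ν = ∫ ω, cm ω m ∂ν :=
    integral_congr_ae (Eventually.of_forall fun ω => cm_cancel ω hq.ne_zero (by omega))
  rw [h1]
  unfold WW
  by_cases hc : Nat.Coprime q m
  · rw [ArithmeticFunction.isMultiplicative_moebius.map_mul_of_coprime hc,
      ArithmeticFunction.moebius_apply_prime hq]
    by_cases hs : Squarefree m
    · rw [if_pos ⟨hc, hs⟩, exp_cm h hs]
      have h2 : ((ArithmeticFunction.moebius m : ℤ) : ℝ) * ((ArithmeticFunction.moebius m : ℤ) : ℝ) =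
          1 := by
        have h3 := ArithmeticFunction.moebius_sq_eq_one_of_squarefree hs
        rw [sq] at h3
        exact_mod_cast h3
      push_cast
      linear_combination (-(m : ℝ) ^ (β - 1)) * h2
    · rw [if_neg fun h' => hs h'.2, ArithmeticFunction.moebius_eq_zero_of_not_squarefree hs]
      simp
  · rw [if_neg fun h' => hc h'.1, ArithmeticFunction.moebius_eq_zero_of_not_squarefree fun h5 =>
      hc (Nat.coprime_of_squarefree_mul h5)]
    simp

theorem exp_full {β : ℝ} (hβ : β ≤ 1)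
    (h : ∀ s : Finset ℕ, ∫ ω, ∏ k ∈ s, sg ω k ∂ν = ∏ k ∈ s, -(pr k : ℝ) ^ (β - 1))
    {q m : ℕ} (hq : q.Prime) (hm : 1 ≤ m) :
    |((ArithmeticFunction.moebius m : ℤ) : ℝ) * ∫ ω, cm ω q * cm ω m ∂ν| ≤
      (m : ℝ) ^ (β - 1) + if q ∣ m then ((m / q : ℕ) : ℝ) ^ (β - 1) else 0 := by
  have hmu : ∀ n : ℕ, |((ArithmeticFunction.moebius n : ℤ) : ℝ)| ≤ 1 := fun n => by
    exact_mod_cast ArithmeticFunction.abs_moebius_le_one
  have hE : ∀ n : ℕ, Squarefree n → |∫ ω, cm ω n ∂ν| ≤ (n : ℝ) ^ (β - 1) := by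
    intro n hn
    rw [exp_cm h hn, abs_mul, abs_of_nonneg (by positivity : (0 : ℝ) ≤ (n : ℝ) ^ (β - 1))]
    exact mul_le_of_le_one_left (by positivity) (hmu n)
  by_cases hs : Squarefree m
  · rw [abs_mul]
    by_cases hd : q ∣ m
    · obtain ⟨k, rfl⟩ := hd
      have hk : 1 ≤ k := by
        rcases Nat.eq_zero_or_pos k with h0 | h0
        · rw [h0] at hm
          omega
        · exact h0
      rw [if_pos (Dvd.intro k rfl), Nat.mul_div_cancel_left _ hq.pos]
      have h1 : ∫ ω, cm ω q * cm ω (q * k) ∂ν = ∫ ω, cm ω k ∂ν :=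
        integral_congr_ae (Eventually.of_forall fun ω => cm_cancel ω hq.ne_zero (by omega))
      rw [h1]
      have h2 : Squarefree k := hs.squarefree_of_dvd (Dvd.intro_left q rfl)
      have h3 : |((ArithmeticFunction.moebius (q * k) : ℤ) : ℝ)| * |∫ ω, cm ω k ∂ν| ≤
          1 * (k : ℝ) ^ (β - 1) :=
        mul_le_mul (hmu _) (hE k h2) (abs_nonneg _) zero_le_one
      have h4 : (0 : ℝ) ≤ ((q * k : ℕ) : ℝ) ^ (β - 1) := by positivity
      linarith
    · rw [if_neg hd, add_zero]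
      have hc : Nat.Coprime q m := (Nat.Prime.coprime_iff_not_dvd hq).2 hd
      have h1 : ∫ ω, cm ω q * cm ω m ∂ν = ∫ ω, cm ω (q * m) ∂ν :=
        integral_congr_ae (Eventually.of_forall fun ω => (cm_mul ω hq.ne_zero (by omega)).symm)
      rw [h1]
      have h2 : Squarefree (q * m) := (Nat.squarefree_mul hc).2 ⟨hq.squarefree, hs⟩
      have h3 : |((ArithmeticFunction.moebius m : ℤ) : ℝ)| * |∫ ω, cm ω (q * m) ∂ν| ≤
          1 * ((q * m : ℕ) : ℝ) ^ (β - 1) :=
        mul_le_mul (hmu _) (hE _ h2) (abs_nonneg _) zero_le_one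
      refine h3.trans ?_
      rw [one_mul]
      refine Real.rpow_le_rpow_of_nonpos (by exact_mod_cast hm) ?_ (by linarith)
      exact_mod_cast Nat.le_mul_of_pos_left m hq.pos
  · rw [ArithmeticFunction.moebius_eq_zero_of_not_squarefree hs]
    simp only [Int.cast_zero, zero_mul, abs_zero]
    split_ifs <;> positivity

end Pool.Agent.Q149.EP
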