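import Pool.Agent.Q149.EP.DLa

/-!
# Project EP (helper255), job DLOW, part b: one modulus, one N
-/

set_option autoImplicit false
set_option linter.unusedSectionVars false
set_option linter.unusedVariables false

namespace Pool.Agent.Q149.EP

open Finset Filter Topology MeasureTheory
open Pool.Agent.Q255.IC (pr sg)
open Pool.Agent.Q255.EP (cm)
open Pool.Agent.Q163.HC (lg gf Dg diag_eq)
open Pool.Agent.Q163.RP (mult)

/-- the diagonal sum -/
noncomputable def TQ (l : Bool) (N q : ℕ) (ω : ℕ → Bool) : ℝ :=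
  ∑ n ∈ (Ico 1 N).filter (fun n => n ≡ N [MOD q]), ArithmeticFunction.vonMangoldt n *
    gf (cm ω) l (N - n)

/-- the full sum -/
noncomputable def T1 (l : Bool) (N : ℕ) (ω : ℕ → Bool) : ℝ :=
  ∑ n ∈ Ico 1 N, ArithmeticFunction.vonMangoldt n * gf (cm ω) l (N - n)

/-- the discrepancy -/
noncomputable def XX (l : Bool) (N q : ℕ) (ω : ℕ → Bool) : ℝ :=
  TQ l N q ω - 1 / (Nat.totient q : ℝ) * T1 l N ω

/-- the main term -/
noncomputable def BB (β : ℝ) (l : Bool) (N q : ℕ) : ℝ :=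
  ∑ m ∈ Icc 1 ((N - 1) / q), ArithmeticFunction.vonMangoldt (N - q * m) *
    (lg l (q * m) * WW β q m)

theorem Dg_eq (l : Bool) (N : ℕ) (θ : ℝ) (ω : ℕ → Bool) : Dg (gf (cm ω) l) N θ =
    ∑ q ∈ (Icc 1 N).filter (fun q : ℕ => (q : ℝ) ≤ (N : ℝ) ^ θ ∧ Nat.Coprime q N), |XX l N q ω| := rfl

variable {ν : Measure (ℕ → Bool)} [IsProbabilityMeasure ν]

theorem gf_int (l : Bool) (m : ℕ) : Integrable (fun ω => gf (cm ω) l m) ν := by
  unfold gf
  exact ((cm_int m).const_mul _).mul_const _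

theorem TQ_int (l : Bool) (N q : ℕ) : Integrable (fun ω => TQ l N q ω) ν := by
  unfold TQ
  exact integrable_finsetSum _ fun n _ => (gf_int l _).const_mul _

theorem T1_int (l : Bool) (N : ℕ) : Integrable (fun ω => T1 l N ω) ν := by
  unfold T1
  exact integrable_finsetSum _ fun n _ => (gf_int l _).const_mul _

theorem XX_int (l : Bool) (N q : ℕ) : Integrable (fun ω => XX l N q ω) ν :=
  (TQ_int l N q).sub ((T1_int l N).const_mul _)

theorem cgf_int (l : Bool) (q m : ℕ) : Integrable (fun ω => cm ω q * gf (cm ω) l m) ν := by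
  have h1 : (fun ω => cm ω q * gf (cm ω) l m) =
      fun ω => (((ArithmeticFunction.moebius m : ℤ) : ℝ) * lg l m) * (cm ω q * cm ω m) := by
    funext ω
    unfold gf
    ring
  rw [h1]
  exact (cm2_int q m).const_mul _

theorem cgf_eq (l : Bool) (q m : ℕ) : ∫ ω, cm ω q * gf (cm ω) l m ∂ν =
    lg l m * (((ArithmeticFunction.moebius m : ℤ) : ℝ) * ∫ ω, cm ω q * cm ω m ∂ν) := by
  have h1 : (fun ω => cm ω q * gf (cm ω) l m) =
      fun ω => (lg l m * ((ArithmeticFunction.moebius m : ℤ) : ℝ)) * (cm ω q * cm ω m) := by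
    funext ω
    unfold gf
    ring
  rw [h1, integral_const_mul, mul_assoc]

theorem cTQ_eq {β : ℝ}
    (h : ∀ s : Finset ℕ, ∫ ω, ∏ k ∈ s, sg ω k ∂ν = ∏ k ∈ s, -(pr k : ℝ) ^ (β - 1))
    (l : Bool) {N q : ℕ} (hN : 1 ≤ N) (hq : q.Prime) :
    ∫ ω, cm ω q * TQ l N q ω ∂ν = - BB β l N q := by
  have h1 : ∀ ω, cm ω q * TQ l N q ω = ∑ m ∈ Icc 1 ((N - 1) / q),
      ArithmeticFunction.vonMangoldt (N - q * m) * (cm ω q * gf (cm ω) l (q * m)) := by
    intro ω
    unfold TQ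
    rw [diag_eq _ N q hN hq.one_le, mul_sum]
    refine sum_congr rfl fun m hm => ?_
    rw [mem_Icc, Nat.le_div_iff_mul_le hq.pos] at hm
    have h2 : q * m = m * q := mul_comm _ _
    have h3 : N - (N - q * m) = q * m := by omega
    rw [h3]
    ring
  simp only [h1]
  rw [integral_finsetSum _ fun m _ => (cgf_int l q _).const_mul _]
  unfold BB
  rw [← sum_neg_distrib]
  refine sum_congr rfl fun m hm => ?_
  rw [integral_const_mul, cgf_eq, exp_diag h hq (mem_Icc.1 hm).1]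
  ring

theorem lg_le {l : Bool} {m N : ℕ} (h1 : 1 ≤ m) (h : m ≤ N) : |lg l m| ≤ 1 + Real.log (N + 1) := by
  have h0 : (0 : ℝ) ≤ Real.log m := Real.log_natCast_nonneg m
  have h2 : Real.log m ≤ Real.log (N + 1) := by
    refine Real.log_le_log (by exact_mod_cast h1) ?_
    have : (m : ℝ) ≤ N := by exact_mod_cast h
    linarith
  unfold lg
  split_ifs
  · rw [abs_of_nonneg h0]
    linarith
  · rw [abs_one]
    linarith

theorem sum_pow1 {β : ℝ} (hβ0 : 0 ≤ β) (N : ℕ) :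
    ∑ m ∈ Icc 1 N, (m : ℝ) ^ (β - 1) ≤ (N : ℝ) ^ β * (1 + Real.log N) := by
  have h1 := Pool.Agent.Q163.HC.sum_pow_le N (1 - β) (by linarith)
  have h2 : ∀ m ∈ Icc 1 N, (1 / (m : ℝ)) ^ (1 - β) = (m : ℝ) ^ (β - 1) := by
    intro m hm
    rw [one_div, Real.inv_rpow (Nat.cast_nonneg m), ← Real.rpow_neg (Nat.cast_nonneg m)]
    congr 1
    ring
  rw [sum_congr rfl h2] at h1
  rwa [sub_sub_cancel] at h1

theorem cT1_le {β : ℝ} (hβ0 : 0 ≤ β) (hβ : β ≤ 1)
    (h : ∀ s : Finset ℕ, ∫ ω, ∏ k ∈ s, sg ω k ∂ν = ∏ k ∈ s, -(pr k : ℝ) ^ (β - 1))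
    (l : Bool) {N q : ℕ} (hN : 1 ≤ N) (hq : q.Prime) :
    |∫ ω, cm ω q * T1 l N ω ∂ν| ≤ 2 * (1 + Real.log (N + 1)) ^ 3 * (N : ℝ) ^ β := by
  classical
  set L : ℝ := 1 + Real.log (N + 1) with hL
  have hlog : 0 ≤ Real.log ((N : ℝ) + 1) := Real.log_nonneg (by
    have : (0 : ℝ) ≤ N := Nat.cast_nonneg N
    linarith)
  have hL0 : 0 ≤ L := by linarith
  have h1 : ∀ ω, cm ω q * T1 l N ω = ∑ n ∈ Ico 1 N,
      ArithmeticFunction.vonMangoldt n * (cm ω q * gf (cm ω) l (N - n)) := by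
    intro ω
    unfold T1
    rw [mul_sum]
    exact sum_congr rfl fun n _ => by ring
  simp only [h1]
  rw [integral_finsetSum _ fun n _ => (cgf_int l q _).const_mul _]
  refine (abs_sum_le_sum_abs _ _).trans ?_
  have h2 : ∀ n ∈ Ico 1 N, |∫ ω, ArithmeticFunction.vonMangoldt n * (cm ω q * gf (cm ω) l (N - n)) ∂ν| ≤
      L ^ 2 * (((N - n : ℕ) : ℝ) ^ (β - 1) +
        if q ∣ N - n then (((N - n) / q : ℕ) : ℝ) ^ (β - 1) else 0) := by
    intro n hn
    rw [mem_Ico] at hn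
    rw [integral_const_mul, cgf_eq, abs_mul, abs_mul, sq, mul_assoc]
    have h3 : |ArithmeticFunction.vonMangoldt n| ≤ L := by
      rw [abs_of_nonneg ArithmeticFunction.vonMangoldt_nonneg]
      refine ArithmeticFunction.vonMangoldt_le_log.trans ?_
      have h4 : Real.log n ≤ Real.log (N + 1) := by
        refine Real.log_le_log (by exact_mod_cast hn.1) ?_
        have : (n : ℝ) ≤ N := by exact_mod_cast hn.2.le
        linarith
      linarith
    refine mul_le_mul h3 ?_ (by positivity) hL0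
    refine mul_le_mul (lg_le (by omega) (Nat.sub_le _ _)) (exp_full hβ h hq (by omega))
      (abs_nonneg _) hL0
  refine (sum_le_sum h2).trans ?_
  rw [← mul_sum]
  have h3 : ∑ n ∈ Ico 1 N, (((N - n : ℕ) : ℝ) ^ (β - 1) +
        if q ∣ N - n then (((N - n) / q : ℕ) : ℝ) ^ (β - 1) else 0) =
      ∑ m ∈ Ico 1 N, ((m : ℝ) ^ (β - 1) + if q ∣ m then ((m / q : ℕ) : ℝ) ^ (β - 1) else 0) := by
    refine sum_nbij' (fun n => N - n) (fun m => N - m) ?_ ?_ ?_ ?_ ?_
    · intro n hn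
      rw [mem_Ico] at hn ⊢
      omega
    · intro n hn
      rw [mem_Ico] at hn ⊢
      omega
    · intro n hn
      rw [mem_Ico] at hn
      omega
    · intro n hn
      rw [mem_Ico] at hn
      omega
    · intro n _
      rfl
  rw [h3, sum_add_distrib]
  have h4 : ∑ m ∈ Ico 1 N, (m : ℝ) ^ (β - 1) ≤ (N : ℝ) ^ β * L := by
    have h5 : ∑ m ∈ Ico 1 N, (m : ℝ) ^ (β - 1) ≤ ∑ m ∈ Icc 1 N, (m : ℝ) ^ (β - 1) :=
      sum_le_sum_of_subset_of_nonneg Ico_subset_Icc_self fun _ _ _ => by positivity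
    refine (h5.trans (sum_pow1 hβ0 N)).trans ?_
    refine mul_le_mul_of_nonneg_left ?_ (by positivity)
    have h6 : Real.log N ≤ Real.log (N + 1) :=
      Real.log_le_log (by exact_mod_cast hN) (by linarith)
    linarith
  have h5 : ∑ m ∈ Ico 1 N, (if q ∣ m then ((m / q : ℕ) : ℝ) ^ (β - 1) else 0) ≤ (N : ℝ) ^ β * L := by
    rw [← sum_filter]
    have hinj : Set.InjOn (fun m => m / q) ((Ico 1 N).filter (fun m => q ∣ m) : Finset ℕ) := by
      intro a ha b hb hab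
      rw [mem_coe, mem_filter] at ha hb
      simp only at hab
      rw [← Nat.mul_div_cancel' ha.2, ← Nat.mul_div_cancel' hb.2, hab]
    rw [← sum_image (f := fun m : ℕ => (m : ℝ) ^ (β - 1)) hinj]
    have h6 : ((Ico 1 N).filter (fun m => q ∣ m)).image (fun m => m / q) ⊆ Icc 1 N := by
      intro x hx
      obtain ⟨m, hm, rfl⟩ := mem_image.1 hx
      rw [mem_filter, mem_Ico] at hm
      rw [mem_Icc]
      exact ⟨Nat.div_pos (Nat.le_of_dvd (by omega) hm.2) hq.pos,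
        (Nat.div_le_self _ _).trans hm.1.2.le⟩
    refine (sum_le_sum_of_subset_of_nonneg h6 fun _ _ _ => by positivity).trans ?_
    refine (sum_pow1 hβ0 N).trans ?_
    refine mul_le_mul_of_nonneg_left ?_ (by positivity)
    have h6 : Real.log N ≤ Real.log (N + 1) :=
      Real.log_le_log (by exact_mod_cast hN) (by linarith)
    linarith
  calc L ^ 2 * (∑ m ∈ Ico 1 N, (m : ℝ) ^ (β - 1) +
        ∑ m ∈ Ico 1 N, (if q ∣ m then ((m / q : ℕ) : ℝ) ^ (β - 1) else 0)) ≤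
      L ^ 2 * ((N : ℝ) ^ β * L + (N : ℝ) ^ β * L) :=
        mul_le_mul_of_nonneg_left (add_le_add h4 h5) (by positivity)
    _ = 2 * L ^ 3 * (N : ℝ) ^ β := by ring

/-- the lower bound for one modulus -/
theorem low_q {β : ℝ} (hβ0 : 0 ≤ β) (hβ : β ≤ 1)
    (h : ∀ s : Finset ℕ, ∫ ω, ∏ k ∈ s, sg ω k ∂ν = ∏ k ∈ s, -(pr k : ℝ) ^ (β - 1))
    (l : Bool) {N q : ℕ} (hN : 1 ≤ N) (hq : q.Prime) :
    BB β l N q - 1 / (Nat.totient q : ℝ) * (2 * (1 + Real.log (N + 1)) ^ 3 * (N : ℝ) ^ β) ≤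
      ∫ ω, |XX l N q ω| ∂ν := by
  have hci : Integrable (fun ω => cm ω q * TQ l N q ω) ν := by
    have h1 : (fun ω => cm ω q * TQ l N q ω) = fun ω => ∑ n ∈ (Ico 1 N).filter (fun n => n ≡ N [MOD q]),
        ArithmeticFunction.vonMangoldt n * (cm ω q * gf (cm ω) l (N - n)) := by
      funext ω
      unfold TQ
      rw [mul_sum]
      exact sum_congr rfl fun n _ => by ring
    rw [h1]
    exact integrable_finsetSum _ fun n _ => (cgf_int l q _).const_mul _
  have hci1 : Integrable (fun ω => cm ω q * T1 l N ω) ν := by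
    have h1 : (fun ω => cm ω q * T1 l N ω) = fun ω => ∑ n ∈ Ico 1 N,
        ArithmeticFunction.vonMangoldt n * (cm ω q * gf (cm ω) l (N - n)) := by
      funext ω
      unfold T1
      rw [mul_sum]
      exact sum_congr rfl fun n _ => by ring
    rw [h1]
    exact integrable_finsetSum _ fun n _ => (cgf_int l q _).const_mul _
  have h2 : ∫ ω, ((1 / (Nat.totient q : ℝ)) * (cm ω q * T1 l N ω) - cm ω q * TQ l N q ω) ∂ν ≤
      ∫ ω, |XX l N q ω| ∂ν := by
    refine integral_mono ((hci1.const_mul _).sub hci) (XX_int l N q).abs fun ω => ?_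
    have h3 : 1 / (Nat.totient q : ℝ) * (cm ω q * T1 l N ω) - cm ω q * TQ l N q ω =
        - (cm ω q * XX l N q ω) := by
      unfold XX
      ring
    simp only
    rw [h3]
    refine (le_abs_self _).trans (le_of_eq ?_)
    rw [abs_neg, abs_mul, cm_abs, one_mul]
  rw [integral_sub (hci1.const_mul _) hci, integral_const_mul, cTQ_eq h l hN hq] at h2
  have h4 := cT1_le hβ0 hβ h l hN hq
  have h5 : -(2 * (1 + Real.log (N + 1)) ^ 3 * (N : ℝ) ^ β) ≤ ∫ ω, cm ω q * T1 l N ω ∂ν :=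
    (abs_le.1 h4).1
  have h6 : 0 ≤ 1 / (Nat.totient q : ℝ) := by positivity
  have h7 := mul_le_mul_of_nonneg_left h5 h6
  linarith

/-- the lower bound for a set of moduli -/
theorem low_S {β : ℝ} (hβ0 : 0 ≤ β) (hβ : β ≤ 1)
    (h : ∀ s : Finset ℕ, ∫ ω, ∏ k ∈ s, sg ω k ∂ν = ∏ k ∈ s, -(pr k : ℝ) ^ (β - 1))
    (l : Bool) {N : ℕ} (hN : 1 ≤ N) (θ : ℝ) (S : Finset ℕ)
    (hS : ∀ q ∈ S, q.Prime ∧ q ≤ N ∧ (q : ℝ) ≤ (N : ℝ) ^ θ ∧ Nat.Coprime q N) :
    ∑ q ∈ S, (BB β l N q - 1 / (Nat.totient q : ℝ) * (2 * (1 + Real.log (N + 1)) ^ 3 * (N : ℝ) ^ β)) ≤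
      ∫ ω, Dg (gf (cm ω) l) N θ ∂ν := by
  simp only [Dg_eq]
  rw [integral_finsetSum _ fun q _ => (XX_int l N q).abs]
  refine (sum_le_sum fun q hq => low_q hβ0 hβ h l hN (hS q hq).1).trans ?_
  refine sum_le_sum_of_subset_of_nonneg (fun q hq => ?_) fun q _ _ =>
    integral_nonneg fun ω => abs_nonneg _
  rw [mem_filter, mem_Icc]
  exact ⟨⟨(hS q hq).1.one_le, (hS q hq).2.1⟩, (hS q hq).2.2⟩

end Pool.Agent.Q149.EP
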