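import Pool.Agent.Q132.EP.St
import Pool.Agent.H307R2.OP.SV
import Pool.Agent.H307R2.OP.ES

/-!
# Task SIE of project EP: primes with few exact prime factors of a linear form
-/

set_option autoImplicit false

namespace Pool.Agent.Q149.EP

open Finset Pool.Agent.Q132.EP

/-- the numbers `u` for which `q ^ 2` divides `Q u - h` -/
theorem card_sq_le (Q h U q : ℕ) (hq : q.Prime) (hQ : ¬ q ∣ Q) :
    (((range (U + 1)).filter (fun u : ℕ => ((q ^ 2 : ℕ) : ℤ) ∣ (Q : ℤ) * u - h)).card : ℝ) ≤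
      ((U : ℝ) + 1) / (q : ℝ) ^ 2 + 1 := by
  rcases ((range (U + 1)).filter (fun u : ℕ => ((q ^ 2 : ℕ) : ℤ) ∣ (Q : ℤ) * u - h)).eq_empty_or_nonempty
    with h0 | ⟨a, ha⟩
  · rw [h0, Finset.card_empty, Nat.cast_zero]
    positivity
  · rw [Finset.mem_filter] at ha
    have hcop : IsCoprime ((q ^ 2 : ℕ) : ℤ) (Q : ℤ) := by
      rw [Nat.isCoprime_iff_coprime]
      exact ((Nat.Prime.coprime_iff_not_dvd hq).2 hQ).pow_left 2
    have hsub : (range (U + 1)).filter (fun u : ℕ => ((q ^ 2 : ℕ) : ℤ) ∣ (Q : ℤ) * u - h) ⊆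
        (range (U + 1)).filter (fun u => u % (q ^ 2) = a % (q ^ 2)) := by
      intro u hu
      rw [Finset.mem_filter] at hu ⊢
      refine ⟨hu.1, ?_⟩
      have h1 : ((q ^ 2 : ℕ) : ℤ) ∣ (Q : ℤ) * ((a : ℤ) - u) := by
        have := dvd_sub ha.2 hu.2
        have e : (Q : ℤ) * a - h - ((Q : ℤ) * u - h) = (Q : ℤ) * ((a : ℤ) - u) := by ring
        rwa [e] at this
      exact Nat.modEq_iff_dvd.2 (hcop.dvd_of_dvd_mul_left h1)
    have h2 := Pool.Agent.H307R2.OP.SV.count_class U (q ^ 2) a (Nat.pos_of_ne_zero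
      (pow_ne_zero 2 hq.ne_zero))
    rw [abs_le] at h2
    have h3 : (((range (U + 1)).filter (fun u : ℕ => ((q ^ 2 : ℕ) : ℤ) ∣ (Q : ℤ) * u - h)).card : ℝ) ≤
        (((range (U + 1)).filter (fun u => u % (q ^ 2) = a % (q ^ 2))).card : ℝ) := by
      exact_mod_cast Finset.card_le_card hsub
    have h4 := h2.2
    push_cast at h4
    linarith

/-- Task SIE. -/
theorem sie (hsia : S_SIA) : S_SIE := by
  intro B h U y z K D R hy hyz hh hB hsm hD hzD hK
  have hQ5 : ∀ q ∈ Q5 y z, q.Prime ∧ y < q ∧ q ≤ z ∧ q % 8 = 5 := by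
    intro q hq
    unfold Q5 at hq
    rw [Finset.mem_filter, Finset.mem_Ioc] at hq
    exact ⟨hq.2.1, hq.1.1, hq.1.2, hq.2.2⟩
  set Q : ℕ := ∏ q ∈ B, q with hQ
  set A : Finset ℕ := Q5 y z \ B with hA
  have hAm : ∀ q ∈ A, q.Prime ∧ y < q ∧ q ≤ z ∧ q % 8 = 5 ∧ q ∈ Q5 y z ∧ q ∉ B := by
    intro q hq
    rw [hA, Finset.mem_sdiff] at hq
    have := hQ5 q hq.1
    exact ⟨this.1, this.2.1, this.2.2.1, this.2.2.2, hq.1, hq.2⟩
  have hAQ : ∀ q ∈ A, ¬ q ∣ Q := by
    intro q hq hd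
    obtain ⟨h1, -, -, -, -, h6⟩ := hAm q hq
    rw [hQ, h1.prime.dvd_finsetProd_iff] at hd
    obtain ⟨q', hq', hqq⟩ := hd
    have := (Nat.prime_dvd_prime_iff_eq h1 (hQ5 q' (hB q' hq')).1).1 hqq
    exact h6 (this ▸ hq')
  set SE : Finset ℕ → Finset ℕ := fun E => (range (U + 1)).filter
    (fun u => (∀ p ∈ Ioc y z, p.Prime → ¬ p ∣ u) ∧
      (∀ q ∈ E, (q : ℤ) ∣ ((∏ r ∈ B, r : ℕ) : ℤ) * u - h) ∧
      ∀ q ∈ Q5 y z, q ∉ B → q ∉ E → ¬ (q : ℤ) ∣ ((∏ r ∈ B, r : ℕ) : ℤ) * u - h) with hSE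
  set T : Finset ℕ := (range (U + 1)).filter (fun u => u.Prime ∧ z < u ∧ h < Q * u ∧
      cnt5 (Q * u - h) < R) with hT
  set T1 : Finset ℕ := A.biUnion (fun q => (range (U + 1)).filter
    (fun u : ℕ => ((q ^ 2 : ℕ) : ℤ) ∣ (Q : ℤ) * u - h)) with hT1
  set T2 : Finset ℕ := (range R).biUnion (fun j => (powersetCard j A).biUnion SE) with hT2
  have hcover : T ⊆ T1 ∪ T2 := by
    intro u hu
    rw [hT, Finset.mem_filter] at hu
    obtain ⟨hu1, hu2, hu3, hu4, hu5⟩ := hu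
    have hcast : ((Q * u - h : ℕ) : ℤ) = (Q : ℤ) * u - h := by
      rw [Nat.cast_sub hu4.le]
      push_cast
      rfl
    have hn0 : Q * u - h ≠ 0 := by omega
    rw [Finset.mem_union]
    by_cases hsq : ∃ q ∈ A, q ^ 2 ∣ Q * u - h
    · left
      obtain ⟨q, hq, hq2⟩ := hsq
      rw [hT1, Finset.mem_biUnion]
      refine ⟨q, hq, ?_⟩
      rw [Finset.mem_filter]
      refine ⟨hu1, ?_⟩
      rw [← hcast]
      exact_mod_cast hq2
    · right
      push Not at hsq
      set E : Finset ℕ := A.filter (fun q => q ∣ Q * u - h) with hE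
      have hEc : E.card < R := by
        refine lt_of_le_of_lt ?_ hu5
        unfold cnt5
        apply Finset.card_le_card
        intro q hq
        rw [hE, Finset.mem_filter] at hq
        obtain ⟨g1, -, -, g4, -⟩ := hAm q hq.1
        rw [Finset.mem_filter, Nat.mem_primeFactors]
        exact ⟨⟨g1, hq.2, hn0⟩, hsq q hq.1, g4⟩
      rw [hT2, Finset.mem_biUnion]
      refine ⟨E.card, Finset.mem_range.2 hEc, ?_⟩
      rw [Finset.mem_biUnion]
      refine ⟨E, Finset.mem_powersetCard.2 ⟨Finset.filter_subset _ _, rfl⟩, ?_⟩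
      simp only [hSE]
      rw [Finset.mem_filter]
      refine ⟨hu1, ?_, ?_, ?_⟩
      · intro p hp hpp hpu
        have := (Nat.prime_dvd_prime_iff_eq hpp hu2).1 hpu
        rw [Finset.mem_Ioc] at hp
        omega
      · intro q hq
        rw [hE, Finset.mem_filter] at hq
        rw [← hQ, ← hcast]
        exact_mod_cast hq.2
      · intro q hq hqB hqE hd
        apply hqE
        rw [hE, Finset.mem_filter, hA, Finset.mem_sdiff]
        refine ⟨⟨hq, hqB⟩, ?_⟩
        rw [← hQ, ← hcast] at hd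
        exact_mod_cast hd
  have hy0 : (0 : ℝ) < y := by exact_mod_cast (by omega : 0 < y)
  have hAcard : A.card ≤ z - y := by
    have : A ⊆ Ioc y z := by
      intro q hq
      obtain ⟨-, g2, g3, -⟩ := hAm q hq
      exact Finset.mem_Ioc.2 ⟨g2, g3⟩
    have := Finset.card_le_card this
    rwa [Nat.card_Ioc] at this
  -- first part
  have hT1c : (T1.card : ℝ) ≤ 2 * U / y + z := by
    have h1 : (T1.card : ℝ) ≤ ∑ q ∈ A, (((U : ℝ) + 1) / (q : ℝ) ^ 2 + 1) := by
      have h2 : T1.card ≤ ∑ q ∈ A, ((range (U + 1)).filter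
          (fun u : ℕ => ((q ^ 2 : ℕ) : ℤ) ∣ (Q : ℤ) * u - h)).card := Finset.card_biUnion_le
      calc (T1.card : ℝ) ≤ ((∑ q ∈ A, ((range (U + 1)).filter
          (fun u : ℕ => ((q ^ 2 : ℕ) : ℤ) ∣ (Q : ℤ) * u - h)).card : ℕ) : ℝ) := by exact_mod_cast h2
        _ = ∑ q ∈ A, (((range (U + 1)).filter
          (fun u : ℕ => ((q ^ 2 : ℕ) : ℤ) ∣ (Q : ℤ) * u - h)).card : ℝ) := by push_cast; rfl
        _ ≤ _ := Finset.sum_le_sum (fun q hq => card_sq_le Q h U q (hAm q hq).1 (hAQ q hq))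
    refine h1.trans ?_
    rw [Finset.sum_add_distrib, Finset.sum_const, nsmul_eq_mul, mul_one]
    have h3 : ∑ q ∈ A, ((U : ℝ) + 1) / (q : ℝ) ^ 2 ≤ ((U : ℝ) + 1) * (1 / y) := by
      have h4 : ∑ q ∈ A, ((U : ℝ) + 1) / (q : ℝ) ^ 2 ≤ ∑ q ∈ Ioc y z, ((U : ℝ) + 1) / (q : ℝ) ^ 2 := by
        apply Finset.sum_le_sum_of_subset_of_nonneg
        · intro q hq
          obtain ⟨-, g2, g3, -⟩ := hAm q hq
          exact Finset.mem_Ioc.2 ⟨g2, g3⟩
        · intro i _ _; positivity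
      refine h4.trans ?_
      have h5 := sum_Ioc_inv_sq_le_sub (α := ℝ) (k := y) (n := z) (by omega) hyz
      have h6 : ∑ q ∈ Ioc y z, ((U : ℝ) + 1) / (q : ℝ) ^ 2 =
          ((U : ℝ) + 1) * ∑ q ∈ Ioc y z, ((q : ℝ) ^ 2)⁻¹ := by
        rw [Finset.mul_sum]
        apply Finset.sum_congr rfl
        intro q _
        ring
      rw [h6]
      apply mul_le_mul_of_nonneg_left _ (by positivity)
      have h7 : (0 : ℝ) ≤ (z : ℝ)⁻¹ := by positivity
      rw [one_div]
      linarith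
    have h8 : (A.card : ℝ) ≤ z - 1 := by
      have h9 : A.card + 1 ≤ z := by omega
      have : (A.card : ℝ) + 1 ≤ z := by exact_mod_cast h9
      linarith
    have h10 : 1 / (y : ℝ) ≤ 1 := by
      rw [div_le_one hy0]
      exact_mod_cast (by omega : 1 ≤ y)
    have h11 : ((U : ℝ) + 1) * (1 / y) = U / y + 1 / y := by ring
    have h12 : (0 : ℝ) ≤ U / y := by positivity
    have h13 : 2 * (U : ℝ) / y = U / y + U / y := by ring
    rw [h13]
    linarith
  -- second part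
  have hVS : 0 ≤ V y z + S5 y z := by
    unfold V S5
    apply add_nonneg <;> exact Finset.sum_nonneg (fun q _ => by positivity)
  set ex : ℝ := Real.exp (-(V y z + S5 y z)) with hex
  have hex0 : 0 < ex := Real.exp_pos _
  have hex1 : ex ≤ 1 := by rw [hex]; exact Real.exp_le_one_iff.2 (by linarith)
  have hSEc : ∀ j ∈ range R, ∀ E ∈ powersetCard j A, ((SE E).card : ℝ) ≤
      50 * U * ex * ∏ q ∈ E, (1 : ℝ) / q + (50 + (D : ℝ) ^ 6) := by
    intro j hj E hE
    rw [Finset.mem_range] at hj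
    rw [Finset.mem_powersetCard] at hE
    have h1 := hsia B E h U y z K D hy hh hB (fun q hq => (hAm q (hE.1 hq)).2.2.2.2.1)
      (by
        rw [Finset.disjoint_left]
        intro q hq hqE
        exact (hAm q (hE.1 hqE)).2.2.2.2.2 hq)
      (by rw [hE.2]; omega) hD hzD hK
    rw [← hex] at h1
    refine h1.trans ?_
    have h2 : ∏ q ∈ E, (1 : ℝ) / q = 1 / ∏ q ∈ E, (q : ℝ) := by
      rw [Finset.prod_div_distrib, Finset.prod_const_one]
    rw [h2]
    have h3 : 50 * ((U : ℝ) / (∏ q ∈ E, (q : ℝ)) + 1) * ex =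
        50 * U * ex * (1 / ∏ q ∈ E, (q : ℝ)) + 50 * ex := by ring
    rw [h3]
    linarith
  have hT2c : (T2.card : ℝ) ≤ 50 * U * ex * (∑ j ∈ range R, S5 y z ^ j / (j.factorial : ℝ)) +
      R * (z : ℝ) ^ R * (50 + (D : ℝ) ^ 6) := by
    have h1 : (T2.card : ℝ) ≤ ∑ j ∈ range R, ∑ E ∈ powersetCard j A,
        (50 * U * ex * ∏ q ∈ E, (1 : ℝ) / q + (50 + (D : ℝ) ^ 6)) := by
      have h2 : T2.card ≤ ∑ j ∈ range R, ∑ E ∈ powersetCard j A, (SE E).card :=
        Finset.card_biUnion_le.trans (Finset.sum_le_sum (fun j _ => Finset.card_biUnion_le))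
      calc (T2.card : ℝ) ≤ ((∑ j ∈ range R, ∑ E ∈ powersetCard j A, (SE E).card : ℕ) : ℝ) := by
            exact_mod_cast h2
        _ = ∑ j ∈ range R, ∑ E ∈ powersetCard j A, ((SE E).card : ℝ) := by push_cast; rfl
        _ ≤ _ := Finset.sum_le_sum (fun j hj => Finset.sum_le_sum (fun E hE => hSEc j hj E hE))
    refine h1.trans ?_
    have h3 : ∀ j ∈ range R, ∑ E ∈ powersetCard j A,
        (50 * U * ex * ∏ q ∈ E, (1 : ℝ) / q + (50 + (D : ℝ) ^ 6)) ≤
        50 * U * ex * (S5 y z ^ j / (j.factorial : ℝ)) + (z : ℝ) ^ R * (50 + (D : ℝ) ^ 6) := by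
      intro j hj
      rw [Finset.mem_range] at hj
      rw [Finset.sum_add_distrib, ← Finset.mul_sum, Finset.sum_const, nsmul_eq_mul]
      have h4 : ∑ E ∈ powersetCard j A, ∏ q ∈ E, (1 : ℝ) / q ≤ S5 y z ^ j / (j.factorial : ℝ) := by
        refine (Pool.Agent.H307R2.OP.es.up A (fun q => (1 : ℝ) / q) j (fun q _ => by positivity)).trans ?_
        apply div_le_div_of_nonneg_right _ (by positivity)
        apply pow_le_pow_left₀ (Finset.sum_nonneg (fun q _ => by positivity))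
        unfold S5
        exact Finset.sum_le_sum_of_subset_of_nonneg Finset.sdiff_subset (fun i _ _ => by positivity)
      have h5 : ((powersetCard j A).card : ℝ) ≤ (z : ℝ) ^ R := by
        rw [Finset.card_powersetCard]
        have h6 : A.card.choose j ≤ z ^ R := by
          calc A.card.choose j ≤ A.card ^ j := Nat.choose_le_pow _ _
            _ ≤ z ^ j := Nat.pow_le_pow_left (by omega) j
            _ ≤ z ^ R := Nat.pow_le_pow_right (by omega) hj.le
        exact_mod_cast h6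
      have h7 : 50 * U * ex * ∑ E ∈ powersetCard j A, ∏ q ∈ E, (1 : ℝ) / q ≤
          50 * U * ex * (S5 y z ^ j / (j.factorial : ℝ)) :=
        mul_le_mul_of_nonneg_left h4 (by positivity)
      have h8 : ((powersetCard j A).card : ℝ) * (50 + (D : ℝ) ^ 6) ≤
          (z : ℝ) ^ R * (50 + (D : ℝ) ^ 6) := mul_le_mul_of_nonneg_right h5 (by positivity)
      linarith
    refine (Finset.sum_le_sum h3).trans (le_of_eq ?_)
    rw [Finset.sum_add_distrib, ← Finset.mul_sum, Finset.sum_const, Finset.card_range, nsmul_eq_mul]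
    ring
  have hfin : (T.card : ℝ) ≤ T1.card + T2.card := by
    exact_mod_cast (Finset.card_le_card hcover).trans (Finset.card_union_le T1 T2)
  linarith

end Pool.Agent.Q149.EP
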